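import Mathlib

/-!
# Toeplitz operators on Fock-Sobolev spaces: definitions
-/

set_option autoImplicit false

open MeasureTheory
open scoped ComplexConjugate

namespace Pool.Agent.Q186.FS

/-- The class `A_1`: finite sums of `p_j(z) exp(conj a_j z)` with polynomials `p_j`. -/
def A1 (f : ℂ → ℂ) : Prop :=
  ∃ (N : ℕ) (p : Fin N → Polynomial ℂ) (a : Fin N → ℂ),
    ∀ z, f z = ∑ j, (p j).eval z * Complex.exp (conj (a j) * z)

/-- The reproducing kernel `K_m(z, w)` of the Fock-Sobolev space. -/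
noncomputable def Ker (m : ℕ) (z w : ℂ) : ℂ :=
  ∑' k : ℕ, ((m.factorial : ℂ) / ((k + m).factorial : ℂ)) * (z * conj w) ^ k

/-- The density of `μ_m` with respect to area measure. -/
noncomputable def dens (m : ℕ) (w : ℂ) : ℝ :=
  ‖w‖ ^ (2 * m) * Real.exp (-‖w‖ ^ 2) / (Real.pi * m.factorial)

/-- The projection `P φ (z) = ∫ φ(w) K_m(z, w) dμ_m(w)`. -/
noncomputable def Proj (m : ℕ) (φ : ℂ → ℂ) (z : ℂ) : ℂ :=
  ∫ w : ℂ, φ w * Ker m z w * (dens m w : ℂ)

/-- The Toeplitz operator `T_u F = P (u F)`. -/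
noncomputable def Toep (m : ℕ) (u F : ℂ → ℂ) : ℂ → ℂ := Proj m fun w => u w * F w

end Pool.Agent.Q186.FS
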