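import Mathlib

set_option autoImplicit false
set_option linter.unusedSectionVars false

open Filter Topology MeasureTheory Complex
open scoped ComplexConjugate

namespace Pool.Agent.Q186.FS

/-- continuous functions of at most exponential growth -/
structure EG (F : ℂ → ℂ) : Prop where
  cont : Continuous F
  bd : ∃ C c : ℝ, 0 ≤ C ∧ 0 ≤ c ∧ ∀ w, ‖F w‖ ≤ C * Real.exp (c * ‖w‖)

/-- the Gaussian weight -/
noncomputable def gw (w : ℂ) : ℂ := ((Real.exp (-‖w‖ ^ 2) : ℝ) : ℂ)

lemma gw_cont : Continuous gw := by unfold gw; fun_prop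

lemma gw_norm (w : ℂ) : ‖gw w‖ = Real.exp (-‖w‖ ^ 2) := by
  unfold gw; rw [Complex.norm_real, Real.norm_of_nonneg (Real.exp_pos _).le]

lemma EG.const (a : ℂ) : EG fun _ => a :=
  ⟨continuous_const, ‖a‖, 0, norm_nonneg _, le_rfl, fun w => by simp⟩

lemma EG.add {F G : ℂ → ℂ} (hF : EG F) (hG : EG G) : EG fun w => F w + G w := by
  obtain ⟨hFc, C, c, hC, hc, hF⟩ := hF
  obtain ⟨hGc, D, d, hD, hd, hG⟩ := hG
  refine ⟨hFc.add hGc, C + D, c + d, by positivity, by positivity, fun w => ?_⟩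
  have h1 : Real.exp (c * ‖w‖) ≤ Real.exp ((c + d) * ‖w‖) :=
    Real.exp_le_exp.2 (by nlinarith [norm_nonneg w])
  have h2 : Real.exp (d * ‖w‖) ≤ Real.exp ((c + d) * ‖w‖) :=
    Real.exp_le_exp.2 (by nlinarith [norm_nonneg w])
  calc ‖F w + G w‖ ≤ ‖F w‖ + ‖G w‖ := norm_add_le _ _
    _ ≤ C * Real.exp (c * ‖w‖) + D * Real.exp (d * ‖w‖) := add_le_add (hF w) (hG w)
    _ ≤ C * Real.exp ((c + d) * ‖w‖) + D * Real.exp ((c + d) * ‖w‖) := by gcongr
    _ = _ := by ring

lemma EG.mul {F G : ℂ → ℂ} (hF : EG F) (hG : EG G) : EG fun w => F w * G w := by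
  obtain ⟨hFc, C, c, hC, hc, hF⟩ := hF
  obtain ⟨hGc, D, d, hD, hd, hG⟩ := hG
  refine ⟨hFc.mul hGc, C * D, c + d, by positivity, by positivity, fun w => ?_⟩
  calc ‖F w * G w‖ = ‖F w‖ * ‖G w‖ := norm_mul _ _
    _ ≤ (C * Real.exp (c * ‖w‖)) * (D * Real.exp (d * ‖w‖)) :=
        mul_le_mul (hF w) (hG w) (norm_nonneg _) (by positivity)
    _ = _ := by rw [add_mul, Real.exp_add]; ring

lemma EG.neg {F : ℂ → ℂ} (hF : EG F) : EG fun w => -F w := by
  have h := (EG.const (-1)).mul hF
  simpa using h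

lemma EG.sub {F G : ℂ → ℂ} (hF : EG F) (hG : EG G) : EG fun w => F w - G w := by
  have h := hF.add hG.neg
  simpa only [sub_eq_add_neg] using h

lemma EG.conj {F : ℂ → ℂ} (hF : EG F) : EG fun w => conj (F w) := by
  obtain ⟨hFc, C, c, hC, hc, hF⟩ := hF
  exact ⟨Complex.continuous_conj.comp hFc, C, c, hC, hc, fun w => by rw [Complex.norm_conj]; exact hF w⟩

lemma EG.id : EG fun w => w := by
  refine ⟨continuous_id, 1, 1, zero_le_one, zero_le_one, fun w => ?_⟩
  rw [one_mul, one_mul]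
  linarith [Real.add_one_le_exp ‖w‖]

lemma EG.pow {F : ℂ → ℂ} (hF : EG F) (n : ℕ) : EG fun w => F w ^ n := by
  induction n with
  | zero => simpa using EG.const 1
  | succ n ih =>
    have := ih.mul hF
    simpa only [pow_succ] using this

lemma EG.sum {ι : Type*} (s : Finset ι) {F : ι → ℂ → ℂ} (hF : ∀ i ∈ s, EG (F i)) :
    EG fun w => ∑ i ∈ s, F i w := by
  classical
  induction s using Finset.induction_on with
  | empty => simpa using EG.const 0
  | insert i s hi ih =>
    simp only [Finset.sum_insert hi]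
    exact (hF i (Finset.mem_insert_self _ _)).add (ih fun j hj => hF j (Finset.mem_insert_of_mem hj))

lemma EG.exp (a : ℂ) : EG fun w => cexp (a * w) := by
  refine ⟨by fun_prop, 1, ‖a‖, zero_le_one, norm_nonneg _, fun w => ?_⟩
  rw [one_mul, Complex.norm_exp]
  refine Real.exp_le_exp.2 ((Complex.re_le_norm _).trans ?_)
  rw [norm_mul]

lemma EG.exp_conj (a : ℂ) : EG fun w => cexp (a * conj w) := by
  refine ⟨by fun_prop, 1, ‖a‖, zero_le_one, norm_nonneg _, fun w => ?_⟩
  rw [one_mul, Complex.norm_exp]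
  refine Real.exp_le_exp.2 ((Complex.re_le_norm _).trans ?_)
  rw [norm_mul, Complex.norm_conj]

lemma EG.poly (p : Polynomial ℂ) : EG fun w => p.eval w := by
  have h : (fun w => p.eval w) = fun w => ∑ i ∈ Finset.range (p.natDegree + 1), p.coeff i * w ^ i := by
    funext w; exact Polynomial.eval_eq_sum_range w
  rw [h]
  exact EG.sum _ fun i _ => (EG.const _).mul (EG.id.pow i)

lemma EG.comp_add {F : ℂ → ℂ} (hF : EG F) (z : ℂ) : EG fun w => F (w + z) := by
  obtain ⟨hFc, C, c, hC, hc, hF⟩ := hF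
  refine ⟨hFc.comp (by fun_prop), C * Real.exp (c * ‖z‖), c, by positivity, hc, fun w => ?_⟩
  refine (hF _).trans ?_
  rw [mul_assoc, ← Real.exp_add]
  refine mul_le_mul_of_nonneg_left (Real.exp_le_exp.2 ?_) hC
  nlinarith [norm_add_le w z]

lemma integrable_gauss (c : ℝ) : Integrable fun w : ℂ => Real.exp (c * ‖w‖) * Real.exp (-‖w‖ ^ 2) := by
  have h0 : Integrable fun w : ℂ => cexp (-(1 / 2 : ℂ) * ‖w‖ ^ 2) := by
    have := GaussianFourier.integrable_cexp_neg_mul_sq_norm_add (V := ℂ) (b := (1 / 2 : ℂ))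
      (by norm_num) 0 0
    simpa using this
  have h1 : Integrable fun w : ℂ => Real.exp (c ^ 2 / 2) * Real.exp (-(1 / 2) * ‖w‖ ^ 2) := by
    have h2 : (fun w : ℂ => Real.exp (c ^ 2 / 2) * Real.exp (-(1 / 2) * ‖w‖ ^ 2)) =
        fun w : ℂ => Real.exp (c ^ 2 / 2) * ‖cexp (-(1 / 2 : ℂ) * ‖w‖ ^ 2)‖ := by
      funext w
      congr 1
      rw [Complex.norm_exp]
      congr 1
      have : -(1 / 2 : ℂ) * (‖w‖ : ℂ) ^ 2 = ((-(1 / 2) * ‖w‖ ^ 2 : ℝ) : ℂ) := by push_cast; ring
      rw [this, Complex.ofReal_re]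
    rw [h2]
    exact h0.norm.const_mul _
  refine h1.mono' (Continuous.aestronglyMeasurable (by fun_prop)) (Eventually.of_forall fun w => ?_)
  rw [Real.norm_of_nonneg (by positivity), ← Real.exp_add, ← Real.exp_add]
  refine Real.exp_le_exp.2 ?_
  nlinarith [sq_nonneg (c - ‖w‖)]

lemma EG.integrable {F : ℂ → ℂ} (hF : EG F) : Integrable fun w => F w * gw w := by
  obtain ⟨hFc, C, c, hC, hc, hF⟩ := hF
  refine ((integrable_gauss c).const_mul C).mono' (hFc.mul gw_cont).aestronglyMeasurable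
    (Eventually.of_forall fun w => ?_)
  rw [norm_mul, gw_norm, ← mul_assoc]
  exact mul_le_mul_of_nonneg_right (hF w) (Real.exp_pos _).le

/-- the Gaussian integral -/
noncomputable def GI (F : ℂ → ℂ) : ℂ := ∫ w : ℂ, F w * gw w

lemma GI_add {F G : ℂ → ℂ} (hF : EG F) (hG : EG G) : GI (fun w => F w + G w) = GI F + GI G := by
  unfold GI
  rw [← integral_add hF.integrable hG.integrable]
  simp only [add_mul]

lemma GI_sub {F G : ℂ → ℂ} (hF : EG F) (hG : EG G) : GI (fun w => F w - G w) = GI F - GI G := by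
  unfold GI
  rw [← integral_sub hF.integrable hG.integrable]
  simp only [sub_mul]

lemma GI_smul (a : ℂ) (F : ℂ → ℂ) : GI (fun w => a * F w) = a * GI F := by
  unfold GI
  rw [← integral_const_mul]
  simp only [mul_assoc]

lemma GI_sum {ι : Type*} (s : Finset ι) {F : ι → ℂ → ℂ} (hF : ∀ i ∈ s, EG (F i)) :
    GI (fun w => ∑ i ∈ s, F i w) = ∑ i ∈ s, GI (F i) := by
  unfold GI
  simp only [Finset.sum_mul]
  exact integral_finsetSum s fun i hi => (hF i hi).integrable

lemma GI_conj (F : ℂ → ℂ) : GI (fun w => conj (F w)) = conj (GI F) := by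
  unfold GI
  rw [← integral_conj]
  congr 1
  funext w
  rw [map_mul]
  congr 1
  unfold gw
  rw [Complex.conj_ofReal]

lemma GI_one : GI (fun _ => 1) = Real.pi := by
  have h := GaussianFourier.integral_cexp_neg_mul_sq_norm (V := ℂ) (b := 1) (by norm_num)
  unfold GI gw
  have h2 : (fun w : ℂ => (1 : ℂ) * ((Real.exp (-‖w‖ ^ 2) : ℝ) : ℂ)) =
      fun w : ℂ => cexp (-1 * (‖w‖ : ℂ) ^ 2) := by
    funext w; push_cast; rw [one_mul]; congr 1; ring
  rw [h2, h]
  simp [Complex.finrank_real_complex]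

/-- rotation invariance -/
lemma GI_rot (G : ℂ → ℂ) (θ : ℝ) : GI (fun w => G (cexp (θ * I) * w)) = GI G := by
  have h1 := (rotation (Circle.exp θ)).measurePreserving.integral_comp
    (rotation (Circle.exp θ)).toHomeomorph.measurableEmbedding (fun w => G w * gw w)
  unfold GI
  rw [← h1]
  congr 1
  funext w
  have h2 : rotation (Circle.exp θ) w = cexp (θ * I) * w := by
    rw [rotation_apply, Circle.coe_exp]
  have h3 : gw (rotation (Circle.exp θ) w) = gw w := by
    unfold gw; rw [LinearIsometryEquiv.norm_map]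
  rw [h3, h2]

/-- mean value property for the Gaussian weight -/
theorem GI_mean {G : ℂ → ℂ} (hd : Differentiable ℂ G) (hG : EG G) : GI G = Real.pi * G 0 := by
  have hcirc : ∀ w : ℂ, ∫ θ in (0 : ℝ)..(2 * Real.pi), G (cexp (θ * I) * w) = 2 * Real.pi * G 0 := by
    intro w
    have h1 : DiffContOnCl ℂ (fun l : ℂ => G (l * w)) (Metric.ball 0 |(1 : ℝ)|) :=
      (hd.comp (differentiable_id.mul_const w)).diffContOnCl
    have h2 := h1.circleAverage
    unfold Real.circleAverage at h2
    simp only [circleMap, zero_add, ofReal_one, one_mul, zero_mul] at h2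
    have h3 : (2 * Real.pi) ≠ 0 := by positivity
    have h4 : (2 * Real.pi : ℝ) • ((2 * Real.pi)⁻¹ • ∫ θ in (0 : ℝ)..(2 * Real.pi),
        G (cexp (θ * I) * w)) = (2 * Real.pi : ℝ) • G 0 := by rw [h2]
    rw [smul_smul, mul_inv_cancel₀ h3, one_smul] at h4
    rw [h4]
    simp
  have hint : Integrable (Function.uncurry fun (θ : ℝ) (w : ℂ) => G (cexp (θ * I) * w) * gw w)
      ((volume.restrict (Set.uIoc 0 (2 * Real.pi))).prod volume) := by
    obtain ⟨hFc, C, c, hC, hc, hF⟩ := hG
    have h5 : Integrable (fun p : ℝ × ℂ => (1 : ℝ) * (C * (Real.exp (c * ‖p.2‖) * Real.exp (-‖p.2‖ ^ 2))))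
        ((volume.restrict (Set.uIoc 0 (2 * Real.pi))).prod volume) := by
      have h6 : IsFiniteMeasure (volume.restrict (Set.uIoc (0 : ℝ) (2 * Real.pi))) := by
        constructor
        rw [Measure.restrict_apply_univ, Set.uIoc_of_le (by positivity)]
        exact measure_Ioc_lt_top
      exact (integrable_const (1 : ℝ)).mul_prod ((integrable_gauss c).const_mul C)
    refine h5.mono' ?_ (Eventually.of_forall fun p => ?_)
    · refine Continuous.aestronglyMeasurable ?_
      have := gw_cont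
      simp only [Function.uncurry_def]
      fun_prop
    · simp only [Function.uncurry_def]
      rw [norm_mul, gw_norm, one_mul, ← mul_assoc]
      refine mul_le_mul_of_nonneg_right ((hF _).trans_eq ?_) (Real.exp_pos _).le
      rw [norm_mul, Complex.norm_exp_ofReal_mul_I, one_mul]
  have h7 : ∫ θ in (0 : ℝ)..(2 * Real.pi), GI G = 2 * Real.pi * (Real.pi * G 0) := by
    calc ∫ θ in (0 : ℝ)..(2 * Real.pi), GI G
        = ∫ θ in (0 : ℝ)..(2 * Real.pi), ∫ w : ℂ, G (cexp (θ * I) * w) * gw w := by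
          congr 1
          funext θ
          exact (GI_rot G θ).symm
      _ = ∫ w : ℂ, ∫ θ in (0 : ℝ)..(2 * Real.pi), G (cexp (θ * I) * w) * gw w := by
          exact intervalIntegral_integral_swap hint
      _ = ∫ w : ℂ, (2 * Real.pi * G 0) * gw w := by
          congr 1
          funext w
          rw [intervalIntegral.integral_mul_const, hcirc]
      _ = 2 * Real.pi * G 0 * Real.pi := by
          rw [integral_const_mul]
          have := GI_one
          unfold GI at this
          simp only [one_mul] at this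
          rw [this]
      _ = _ := by ring
  rw [intervalIntegral.integral_const, sub_zero] at h7
  have h8 : ((2 * Real.pi : ℝ) : ℂ) ≠ 0 := by
    exact_mod_cast (by positivity : (2 * Real.pi) ≠ 0)
  rw [Complex.real_smul] at h7
  apply mul_left_cancel₀ h8
  rw [h7]; push_cast; ring

end Pool.Agent.Q186.FS
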