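import Mathlib
import Pool.Agent.Q186.FS.Gauss

set_option autoImplicit false
set_option linter.unusedSectionVars false

open Filter Topology Complex Polynomial
open scoped ComplexConjugate Pointwise

namespace Pool.Agent.Q186.FS

/-- exponential polynomials with frequencies in `S` -/
def EP (S : Finset ℂ) (φ : ℂ → ℂ) : Prop :=
  ∃ P : ℂ → ℂ[X], ∀ z, φ z = ∑ a ∈ S, (P a).eval z * cexp (a * z)

lemma EP.mono {S T : Finset ℂ} (h : S ⊆ T) {φ : ℂ → ℂ} (hφ : EP S φ) : EP T φ := by
  classical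
  obtain ⟨P, hP⟩ := hφ
  refine ⟨fun a => if a ∈ S then P a else 0, fun z => ?_⟩
  rw [hP, ← Finset.sum_subset h]
  · exact Finset.sum_congr rfl fun a ha => by simp only [if_pos ha]
  · intro a _ ha
    simp [ha]

lemma EP.add {S : Finset ℂ} {φ ψ : ℂ → ℂ} (hφ : EP S φ) (hψ : EP S ψ) :
    EP S fun z => φ z + ψ z := by
  obtain ⟨P, hP⟩ := hφ
  obtain ⟨Q, hQ⟩ := hψ
  refine ⟨fun a => P a + Q a, fun z => ?_⟩
  simp only
  rw [hP, hQ, ← Finset.sum_add_distrib]
  exact Finset.sum_congr rfl fun a _ => by rw [eval_add]; ring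

lemma EP.poly_mul {S : Finset ℂ} {φ : ℂ → ℂ} (p : ℂ[X]) (hφ : EP S φ) :
    EP S fun z => p.eval z * φ z := by
  obtain ⟨P, hP⟩ := hφ
  refine ⟨fun a => p * P a, fun z => ?_⟩
  simp only
  rw [hP, Finset.mul_sum]
  exact Finset.sum_congr rfl fun a _ => by rw [eval_mul]; ring

lemma EP.smul {S : Finset ℂ} {φ : ℂ → ℂ} (c : ℂ) (hφ : EP S φ) : EP S fun z => c * φ z := by
  have := hφ.poly_mul (C c)
  simpa using this

lemma EP.zero (S : Finset ℂ) : EP S fun _ => 0 := ⟨fun _ => 0, fun z => by simp⟩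

lemma EP.sub {S : Finset ℂ} {φ ψ : ℂ → ℂ} (hφ : EP S φ) (hψ : EP S ψ) :
    EP S fun z => φ z - ψ z := by
  have := hφ.add (hψ.smul (-1))
  simpa [sub_eq_add_neg] using this

lemma EP.sum {ι : Type*} (s : Finset ι) {S : Finset ℂ} {φ : ι → ℂ → ℂ}
    (h : ∀ i ∈ s, EP S (φ i)) : EP S fun z => ∑ i ∈ s, φ i z := by
  classical
  induction s using Finset.induction_on with
  | empty => simpa using EP.zero S
  | insert i s hi ih =>
    simp only [Finset.sum_insert hi]
    exact (h i (Finset.mem_insert_self _ _)).add (ih fun j hj => h j (Finset.mem_insert_of_mem hj))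

lemma EP.single {S : Finset ℂ} {a : ℂ} (ha : a ∈ S) (p : ℂ[X]) :
    EP S fun z => p.eval z * cexp (a * z) := by
  classical
  refine EP.mono (Finset.singleton_subset_iff.2 ha) ⟨fun _ => p, fun z => ?_⟩
  simp

lemma EP.poly {S : Finset ℂ} (h0 : (0 : ℂ) ∈ S) (p : ℂ[X]) : EP S fun z => p.eval z := by
  have := EP.single h0 p
  simpa using this

lemma EP.mul_exp [DecidableEq ℂ] {S : Finset ℂ} {φ : ℂ → ℂ} (c : ℂ) (hφ : EP S φ) :
    EP (S.image (· + c)) fun z => φ z * cexp (c * z) := by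
  obtain ⟨P, hP⟩ := hφ
  have h : (fun z => φ z * cexp (c * z)) = fun z => ∑ a ∈ S, (P a).eval z * cexp ((a + c) * z) := by
    funext z
    rw [hP, Finset.sum_mul]
    refine Finset.sum_congr rfl fun a _ => ?_
    rw [add_mul, Complex.exp_add]; ring
  rw [h]
  exact EP.sum S fun a ha => EP.single (Finset.mem_image_of_mem _ ha) _

lemma EP.mul [DecidableEq ℂ] {S T : Finset ℂ} {φ ψ : ℂ → ℂ} (hφ : EP S φ) (hψ : EP T ψ) :
    EP (S + T) fun z => φ z * ψ z := by
  obtain ⟨P, hP⟩ := hφ
  obtain ⟨Q, hQ⟩ := hψ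
  have h : (fun z => φ z * ψ z) = fun z => ∑ a ∈ S, ∑ b ∈ T,
      (P a * Q b).eval z * cexp ((a + b) * z) := by
    funext z
    rw [hP, hQ, Finset.sum_mul_sum]
    refine Finset.sum_congr rfl fun a _ => Finset.sum_congr rfl fun b _ => ?_
    rw [add_mul, Complex.exp_add, eval_mul]; ring
  rw [h]
  exact EP.sum S fun a ha => EP.sum T fun b hb => EP.single (Finset.add_mem_add ha hb) _

lemma EP.comp_add {S : Finset ℂ} {φ : ℂ → ℂ} (c : ℂ) (hφ : EP S φ) :
    EP S fun z => φ (z + c) := by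
  obtain ⟨P, hP⟩ := hφ
  refine ⟨fun a => C (cexp (a * c)) * (P a).comp (X + C c), fun z => ?_⟩
  simp only
  rw [hP]
  refine Finset.sum_congr rfl fun a _ => ?_
  rw [mul_add, Complex.exp_add]
  simp only [eval_mul, eval_C, eval_comp, eval_add, eval_X]
  ring

lemma hasDerivAt_term (p : ℂ[X]) (a z : ℂ) : HasDerivAt (fun z => p.eval z * cexp (a * z))
    ((p.derivative + C a * p).eval z * cexp (a * z)) z := by
  have h1 : HasDerivAt (fun z : ℂ => cexp (a * z)) (cexp (a * z) * a) z := by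
    have h8 : HasDerivAt (fun z : ℂ => a * z) a z := by
      simpa using (hasDerivAt_id z).const_mul a
    exact h8.cexp
  refine ((p.hasDerivAt z).mul h1).congr_deriv ?_
  simp only [eval_add, eval_mul, eval_C]
  ring

lemma EP.differentiable {S : Finset ℂ} {φ : ℂ → ℂ} (hφ : EP S φ) : Differentiable ℂ φ := by
  obtain ⟨P, hP⟩ := hφ
  rw [show φ = _ from funext hP]
  intro z
  exact (HasDerivAt.fun_sum fun a _ => hasDerivAt_term (P a) a z).differentiableAt

lemma EP.deriv {S : Finset ℂ} {φ : ℂ → ℂ} (hφ : EP S φ) : EP S (deriv φ) := by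
  obtain ⟨P, hP⟩ := hφ
  refine ⟨fun a => (P a).derivative + C a * P a, fun z => ?_⟩
  rw [show φ = _ from funext hP]
  exact (HasDerivAt.fun_sum fun a _ => hasDerivAt_term (P a) a z).deriv

lemma EP.iteratedDeriv {S : Finset ℂ} {φ : ℂ → ℂ} (hφ : EP S φ) (n : ℕ) :
    EP S (iteratedDeriv n φ) := by
  induction n with
  | zero => simpa [iteratedDeriv_zero] using hφ
  | succ n ih => rw [iteratedDeriv_succ]; exact ih.deriv

lemma EP.eg {S : Finset ℂ} {φ : ℂ → ℂ} (hφ : EP S φ) : EG φ := by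
  obtain ⟨P, hP⟩ := hφ
  rw [show φ = _ from funext hP]
  exact EG.sum S fun a _ => (EG.poly _).mul (EG.exp a)

/-! ### linear independence -/

/-- `D + c` on polynomials -/
noncomputable def Dc (c : ℂ) (p : ℂ[X]) : ℂ[X] := p.derivative + C c * p

lemma Dc_ne_zero {c : ℂ} (hc : c ≠ 0) {p : ℂ[X]} (hp : p ≠ 0) : Dc c p ≠ 0 := by
  intro h
  have h1 : (Dc c p).coeff p.natDegree = c * p.leadingCoeff := by
    unfold Dc
    rw [coeff_add, coeff_C_mul]
    have h2 : p.derivative.coeff p.natDegree = 0 := by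
      rw [coeff_derivative, coeff_eq_zero_of_natDegree_lt (Nat.lt_succ_self _), zero_mul]
    rw [h2, zero_add]; rfl
  rw [h, coeff_zero] at h1
  rcases mul_eq_zero.1 h1.symm with h3 | h3
  · exact hc h3
  · exact hp (leadingCoeff_eq_zero.1 h3)

lemma Dc_iter_ne_zero {c : ℂ} (hc : c ≠ 0) {p : ℂ[X]} (hp : p ≠ 0) (n : ℕ) : (Dc c)^[n] p ≠ 0 := by
  induction n with
  | zero => simpa using hp
  | succ n ih => rw [Function.iterate_succ_apply']; exact Dc_ne_zero hc ih

lemma step {S : Finset ℂ} {b : ℂ} (n : ℕ) : ∀ (Q : ℂ[X]) (P : ℂ → ℂ[X]),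
    (∀ z, Q.eval z + ∑ a ∈ S, (P a).eval z * cexp ((a - b) * z) = 0) →
    ∀ z, (derivative^[n] Q).eval z + ∑ a ∈ S, ((Dc (a - b))^[n] (P a)).eval z *
      cexp ((a - b) * z) = 0 := by
  induction n with
  | zero => intro Q P h z; simpa using h z
  | succ n ih =>
    intro Q P h z
    have h1 := ih Q P h
    have h2 : HasDerivAt (fun z => (derivative^[n] Q).eval z + ∑ a ∈ S,
        ((Dc (a - b))^[n] (P a)).eval z * cexp ((a - b) * z))
        ((derivative^[n + 1] Q).eval z + ∑ a ∈ S, ((Dc (a - b))^[n + 1] (P a)).eval z *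
          cexp ((a - b) * z)) z := by
      simp only [Function.iterate_succ_apply']
      exact ((derivative^[n] Q).hasDerivAt z).add
        (HasDerivAt.fun_sum fun a _ => hasDerivAt_term _ (a - b) z)
    have h3 : (fun z => (derivative^[n] Q).eval z + ∑ a ∈ S,
        ((Dc (a - b))^[n] (P a)).eval z * cexp ((a - b) * z)) = fun _ => 0 := funext h1
    rw [h3] at h2
    exact h2.unique (hasDerivAt_const z 0)

theorem indep [DecidableEq ℂ] (S : Finset ℂ) : ∀ P : ℂ → ℂ[X],
    (∀ z, ∑ a ∈ S, (P a).eval z * cexp (a * z) = 0) → ∀ a ∈ S, P a = 0 := by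
  induction S using Finset.induction_on with
  | empty => intro P _ a ha; simp at ha
  | insert b S hb ih =>
    intro P h
    have h1 : ∀ z, (P b).eval z + ∑ a ∈ S, (P a).eval z * cexp ((a - b) * z) = 0 := by
      intro z
      have h2 := h z
      rw [Finset.sum_insert hb] at h2
      have h3 : cexp (-(b * z)) * ((P b).eval z * cexp (b * z) +
          ∑ a ∈ S, (P a).eval z * cexp (a * z)) = 0 := by rw [h2, mul_zero]
      rw [mul_add, Finset.mul_sum] at h3
      rw [← h3]
      congr 1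
      · rw [mul_left_comm, ← Complex.exp_add]; simp
      · refine Finset.sum_congr rfl fun a _ => ?_
        rw [mul_left_comm, ← Complex.exp_add]
        congr 2; ring
    have hS : ∀ a ∈ S, P a = 0 := by
      have h4 := step ((P b).natDegree + 1) (P b) P h1
      have h5 : derivative^[(P b).natDegree + 1] (P b) = 0 :=
        iterate_derivative_eq_zero (Nat.lt_succ_self _)
      have h6 : ∀ z, ∑ a ∈ S, ((Dc (a - b))^[(P b).natDegree + 1] (P a)).eval z *
          cexp (a * z) = 0 := by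
        intro z
        have h7 := h4 z
        rw [h5, eval_zero, zero_add] at h7
        have h8 : cexp (b * z) * ∑ a ∈ S, ((Dc (a - b))^[(P b).natDegree + 1] (P a)).eval z *
            cexp ((a - b) * z) = 0 := by rw [h7, mul_zero]
        rw [Finset.mul_sum] at h8
        rw [← h8]
        refine Finset.sum_congr rfl fun a _ => ?_
        rw [mul_left_comm, ← Complex.exp_add]
        congr 2; ring
      have h9 := ih (fun a => (Dc (a - b))^[(P b).natDegree + 1] (P a)) h6
      intro a ha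
      by_contra hne
      have hab : a - b ≠ 0 := fun h0 => hb (by rw [← sub_eq_zero.1 h0]; exact ha)
      exact Dc_iter_ne_zero hab hne _ (h9 a ha)
    intro a ha
    rcases Finset.mem_insert.1 ha with rfl | ha
    · have h10 : ∀ z, (P a).eval z = 0 := by
        intro z
        have h11 := h1 z
        rw [Finset.sum_eq_zero fun c hc => by rw [hS c hc, eval_zero, zero_mul], add_zero] at h11
        exact h11
      exact Polynomial.funext fun z => by rw [h10 z, eval_zero]
    · exact hS a ha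

/-- exponential polynomials with disjoint frequency sets -/
theorem EP.eq_zero_of_disjoint [DecidableEq ℂ] {S T : Finset ℂ} (hST : Disjoint S T) {φ : ℂ → ℂ}
    (h1 : EP S φ) (h2 : EP T φ) : ∀ z, φ z = 0 := by
  obtain ⟨P, hP⟩ := h1
  obtain ⟨Q, hQ⟩ := h2
  have h3 : ∀ z, ∑ a ∈ S ∪ T, ((if a ∈ S then P a else - Q a) : ℂ[X]).eval z * cexp (a * z) = 0 := by
    intro z
    rw [Finset.sum_union hST]
    have h4 : ∑ a ∈ S, ((if a ∈ S then P a else - Q a) : ℂ[X]).eval z * cexp (a * z) = φ z := by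
      rw [hP]
      exact Finset.sum_congr rfl fun a ha => by rw [if_pos ha]
    have h5 : ∑ a ∈ T, ((if a ∈ S then P a else - Q a) : ℂ[X]).eval z * cexp (a * z) = -φ z := by
      rw [hQ, ← Finset.sum_neg_distrib]
      refine Finset.sum_congr rfl fun a ha => ?_
      rw [if_neg fun h => (Finset.disjoint_left.1 hST h ha), eval_neg, neg_mul]
    rw [h4, h5, add_neg_cancel]
  have h6 := indep (S ∪ T) _ h3
  intro z
  rw [hP]
  refine Finset.sum_eq_zero fun a ha => ?_
  have h7 := h6 a (Finset.mem_union_left _ ha)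
  rw [if_pos ha] at h7
  rw [h7, eval_zero, zero_mul]

end Pool.Agent.Q186.FS
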