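import Mathlib
import Pool.Agent.Q186.FS.Gauss

set_option autoImplicit false
set_option linter.unusedSectionVars false

open Filter Topology MeasureTheory Complex
open scoped ComplexConjugate

namespace Pool.Agent.Q186.FS

/-- the reproducing property in the Fock space -/
theorem GI_repro {φ : ℂ → ℂ} (hd : Differentiable ℂ φ) (hφ : EG φ) (z : ℂ) :
    GI (fun w => φ w * cexp (z * conj w)) = Real.pi * φ z := by
  have h1 : GI (fun w => φ w * cexp (z * conj w)) =
      GI (fun w => φ (w + z) * cexp (-(conj z) * w)) := by
    unfold GI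
    rw [← integral_add_right_eq_self (fun w => φ w * cexp (z * conj w) * gw w) z]
    congr 1
    funext w
    rw [mul_assoc, mul_assoc]
    congr 1
    unfold gw
    rw [Complex.ofReal_exp, Complex.ofReal_exp, ← Complex.exp_add, ← Complex.exp_add]
    congr 1
    have h2 : ∀ x : ℂ, ((-‖x‖ ^ 2 : ℝ) : ℂ) = -(x * conj x) := fun x => by
      rw [Complex.mul_conj, Complex.normSq_eq_norm_sq]; push_cast; ring
    rw [h2, h2, map_add]
    ring
  rw [h1]
  have h3 : EG fun w => φ (w + z) * cexp (-(conj z) * w) := (hφ.comp_add z).mul (EG.exp _)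
  have h4 : Differentiable ℂ fun w => φ (w + z) * cexp (-(conj z) * w) := by
    have : Differentiable ℂ fun w : ℂ => w + z := by fun_prop
    exact (hd.comp this).mul (by fun_prop)
  rw [GI_mean h4 h3]
  simp

/-- the version with powers of `conj w` -/
theorem GI_repro_deriv {φ : ℂ → ℂ} (hd : Differentiable ℂ φ) (hφ : EG φ) (l : ℕ) : ∀ z : ℂ,
    GI (fun w => conj w ^ l * φ w * cexp (z * conj w)) = Real.pi * iteratedDeriv l φ z := by
  induction l with
  | zero =>
    intro z
    simpa [iteratedDeriv_zero] using GI_repro hd hφ z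
  | succ l ih =>
    intro z
    have hEG : ∀ (l : ℕ) (z : ℂ), EG fun w => conj w ^ l * φ w * cexp (z * conj w) := fun l z =>
      ((EG.id.conj.pow l).mul hφ).mul (EG.exp_conj z)
    have hder : HasDerivAt (fun z => GI (fun w => conj w ^ l * φ w * cexp (z * conj w)))
        (GI (fun w => conj w ^ (l + 1) * φ w * cexp (z * conj w))) z := by
      obtain ⟨C, c, hC, hc, hb⟩ := ((EG.id.conj.pow (l + 1)).mul hφ).bd
      unfold GI
      refine (hasDerivAt_integral_of_dominated_loc_of_deriv_le
        (F := fun z w => conj w ^ l * φ w * cexp (z * conj w) * gw w)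
        (F' := fun z w => conj w ^ (l + 1) * φ w * cexp (z * conj w) * gw w)
        (s := Metric.ball z 1)
        (bound := fun w => C * (Real.exp ((c + (‖z‖ + 1)) * ‖w‖) * Real.exp (-‖w‖ ^ 2)))
        (Metric.ball_mem_nhds z one_pos) ?_ ?_ ?_ ?_ ?_ ?_).2
      · exact Eventually.of_forall fun z => ((hEG l z).integrable).aestronglyMeasurable
      · exact (hEG l z).integrable
      · exact ((hEG (l + 1) z).integrable).aestronglyMeasurable
      · refine Eventually.of_forall fun w y hy => ?_
        rw [norm_mul, gw_norm, norm_mul, ← mul_assoc C]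
        refine mul_le_mul_of_nonneg_right ?_ (Real.exp_pos _).le
        rw [add_mul, Real.exp_add, ← mul_assoc]
        refine mul_le_mul (hb w) ?_ (norm_nonneg _) (by positivity)
        rw [Complex.norm_exp]
        refine Real.exp_le_exp.2 ((Complex.re_le_norm _).trans ?_)
        rw [norm_mul, Complex.norm_conj]
        have h5 : ‖y‖ ≤ ‖z‖ + 1 := by
          have h6 : ‖y - z‖ < 1 := by simpa [dist_eq_norm] using hy
          calc ‖y‖ = ‖z + (y - z)‖ := by congr 1; ring
            _ ≤ ‖z‖ + ‖y - z‖ := norm_add_le _ _
            _ ≤ _ := by linarith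
        exact mul_le_mul_of_nonneg_right h5 (norm_nonneg _)
      · exact (integrable_gauss _).const_mul C
      · refine Eventually.of_forall fun w y _ => ?_
        have h7 : HasDerivAt (fun z : ℂ => cexp (z * conj w)) (cexp (y * conj w) * conj w) y := by
          have h8 : HasDerivAt (fun z : ℂ => z * conj w) (conj w) y := by
            simpa using (hasDerivAt_id y).mul_const (conj w)
          exact h8.cexp
        have h9 := (h7.const_mul (conj w ^ l * φ w)).mul_const (gw w)
        refine h9.congr_deriv ?_
        rw [pow_succ]; ring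
    have h10 : (fun z => GI (fun w => conj w ^ l * φ w * cexp (z * conj w))) =
        fun z => Real.pi * iteratedDeriv l φ z := funext ih
    rw [h10] at hder
    have h11 := hder.deriv
    rw [deriv_const_mul_field] at h11
    rw [iteratedDeriv_succ, ← h11]

end Pool.Agent.Q186.FS
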