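import Mathlib
import Pool.Agent.Q186.FS.Gauss
import Pool.Agent.Q186.FS.Repro
import Pool.Agent.Q186.FS.EP
import Pool.Agent.Q186.FS.Defs

set_option autoImplicit false
set_option linter.unusedSectionVars false

open Filter Topology MeasureTheory Complex
open scoped ComplexConjugate

namespace Pool.Agent.Q186.FS

/-- the kernel as a function of one variable -/
noncomputable def kap (m : ℕ) (t : ℂ) : ℂ :=
  ∑' k : ℕ, ((m.factorial : ℂ) / ((k + m).factorial : ℂ)) * t ^ k

/-- the partial sum of the exponential series -/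
noncomputable def sm (m : ℕ) (t : ℂ) : ℂ := ∑ j ∈ Finset.range m, t ^ j / (j.factorial : ℂ)

/-- the tail of the exponential series -/
noncomputable def En (m : ℕ) (t : ℂ) : ℂ := cexp t - sm m t

lemma Ker_eq (m : ℕ) (z w : ℂ) : Ker m z w = kap m (z * conj w) := rfl

lemma pow_mul_kap (m : ℕ) (t : ℂ) : t ^ m * kap m t = m.factorial * En m t := by
  have hs : HasSum (fun n : ℕ => t ^ n / (n.factorial : ℂ)) (cexp t) := by
    have := NormedSpace.expSeries_div_hasSum_exp (𝔸 := ℂ) t
    rw [Complex.exp_eq_exp_ℂ]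
    exact this
  have h1 := hs.summable.sum_add_tsum_nat_add m
  rw [hs.tsum_eq] at h1
  unfold kap En sm
  rw [← h1, add_sub_cancel_left, ← tsum_mul_left, ← tsum_mul_left]
  refine tsum_congr fun k => ?_
  rw [pow_add]; ring

lemma En_conj (m : ℕ) (t : ℂ) : conj (En m t) = En m (conj t) := by
  unfold En sm
  rw [map_sub, map_sum, ← Complex.exp_conj]
  congr 1
  refine Finset.sum_congr rfl fun j _ => ?_
  rw [map_div₀, map_pow, Complex.conj_natCast]

lemma sm_eg {F : ℂ → ℂ} (hF : EG F) (m : ℕ) : EG fun w => sm m (F w) := by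
  unfold sm
  refine EG.sum _ fun j _ => ?_
  have := (EG.const ((j.factorial : ℂ)⁻¹)).mul (hF.pow j)
  refine ⟨?_, ?_⟩
  · have h := this.cont
    refine h.congr fun w => ?_
    rw [div_eq_inv_mul]
  · obtain ⟨C, c, hC, hc, h⟩ := this.bd
    exact ⟨C, c, hC, hc, fun w => by rw [div_eq_inv_mul]; exact h w⟩

lemma En_mul_eg (m : ℕ) (a : ℂ) : EG fun w => En m (a * w) :=
  (EG.exp a).sub (sm_eg ((EG.const a).mul EG.id) m)

lemma En_conj_eg (m : ℕ) (a : ℂ) : EG fun w => En m (a * conj w) :=
  (EG.exp_conj a).sub (sm_eg ((EG.const a).mul EG.id.conj) m)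

lemma sm_differentiable (m : ℕ) (a : ℂ) : Differentiable ℂ fun w => sm m (a * w) := by
  unfold sm; fun_prop

lemma En_differentiable (m : ℕ) (a : ℂ) : Differentiable ℂ fun w => En m (a * w) := by
  unfold En
  have := sm_differentiable m a
  fun_prop

/-- integration against `En (z conj w)` -/
lemma GI_En {ψ : ℂ → ℂ} (hd : Differentiable ℂ ψ) (hψ : EG ψ) (m : ℕ) (z : ℂ) :
    GI (fun w => ψ w * En m (z * conj w)) =
      Real.pi * (ψ z - ∑ j ∈ Finset.range m, z ^ j / (j.factorial : ℂ) * iteratedDeriv j ψ 0) := by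
  have h0 : ∀ j : ℕ, GI (fun w => z ^ j / (j.factorial : ℂ) * (conj w ^ j * ψ w * cexp (0 * conj w)))
      = z ^ j / (j.factorial : ℂ) * (Real.pi * iteratedDeriv j ψ 0) := fun j => by
    rw [GI_smul, GI_repro_deriv hd hψ]
  have hE : ∀ j ∈ Finset.range m, EG fun w =>
      z ^ j / (j.factorial : ℂ) * (conj w ^ j * ψ w * cexp (0 * conj w)) := fun j _ =>
    (EG.const _).mul (((EG.id.conj.pow j).mul hψ).mul (EG.exp_conj 0))
  have h1 : (fun w => ψ w * En m (z * conj w)) = fun w => ψ w * cexp (z * conj w) -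
      ∑ j ∈ Finset.range m, z ^ j / (j.factorial : ℂ) * (conj w ^ j * ψ w * cexp (0 * conj w)) := by
    funext w
    unfold En sm
    rw [mul_sub, Finset.mul_sum]
    congr 1
    refine Finset.sum_congr rfl fun j _ => ?_
    rw [zero_mul, Complex.exp_zero, mul_pow]; ring
  rw [h1, GI_sub (hψ.mul (EG.exp_conj z)) (EG.sum _ hE), GI_repro hd hψ, GI_sum _ hE, mul_sub,
    Finset.mul_sum]
  congr 1
  refine Finset.sum_congr rfl fun j _ => ?_
  rw [h0]; ring

lemma iteratedDeriv_En {m i : ℕ} (hi : i < m) (a : ℂ) :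
    iteratedDeriv i (fun w => En m (a * w)) 0 = 0 := by
  have h1 : ContDiffAt ℂ i (fun w => cexp (a * w)) 0 := by fun_prop
  have h2 : ∀ j ∈ Finset.range m, ContDiffAt ℂ i (fun w : ℂ => (a ^ j / (j.factorial : ℂ)) * w ^ j) 0 :=
    fun j _ => by fun_prop
  have h3 : (fun w => En m (a * w)) = fun w => cexp (a * w) -
      ∑ j ∈ Finset.range m, (a ^ j / (j.factorial : ℂ)) * w ^ j := by
    funext w
    unfold En sm
    congr 1
    refine Finset.sum_congr rfl fun j _ => ?_
    rw [mul_pow]; ring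
  rw [h3, iteratedDeriv_fun_sub h1 (ContDiffAt.sum h2), iteratedDeriv_cexp_const_mul,
    iteratedDeriv_fun_sum h2]
  simp only [mul_zero, Complex.exp_zero, mul_one]
  rw [Finset.sum_eq_single i]
  · rw [iteratedDeriv_const_mul_field, iteratedDeriv_fun_pow_zero, if_pos rfl]
    have : (i.factorial : ℂ) ≠ 0 := by exact_mod_cast i.factorial_ne_zero
    field_simp
    ring
  · intro j _ hj
    rw [iteratedDeriv_const_mul_field, iteratedDeriv_fun_pow_zero, if_neg (Ne.symm hj), Nat.cast_zero,
      mul_zero]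
  · intro h; exact absurd (Finset.mem_range.2 hi) h

lemma iteratedDeriv_mul_En {h : ℂ → ℂ} (hd : Differentiable ℂ h) {m j : ℕ} (hj : j < m) (a : ℂ) :
    iteratedDeriv j (fun w => h w * En m (a * w)) 0 = 0 := by
  rw [iteratedDeriv_fun_mul (hd.contDiff.contDiffAt) ((En_differentiable m a).contDiff.contDiffAt)]
  refine Finset.sum_eq_zero fun i _ => ?_
  rw [iteratedDeriv_En (lt_of_le_of_lt (Nat.sub_le _ _) hj), mul_zero]

/-- the reproducing property of the Fock-Sobolev space, holomorphic symbol -/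
lemma GI_hol {h : ℂ → ℂ} (hd : Differentiable ℂ h) (hh : EG h) (m : ℕ) (ζ z : ℂ) :
    GI (fun w => h w * En m (ζ * w) * En m (z * conj w)) = Real.pi * (h z * En m (ζ * z)) := by
  rw [GI_En (ψ := fun w => h w * En m (ζ * w)) (hd.mul (En_differentiable m ζ))
    (hh.mul (En_mul_eg m ζ)) m z]
  rw [Finset.sum_eq_zero fun j hj => ?_, sub_zero]
  rw [iteratedDeriv_mul_En hd (Finset.mem_range.1 hj), mul_zero]

/-- antiholomorphic symbol -/
lemma GI_antihol {g : ℂ → ℂ} (hd : Differentiable ℂ g) (hg : EG g) (m : ℕ) (ζ z : ℂ) :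
    GI (fun w => conj (g w) * En m (ζ * w) * En m (z * conj w)) =
      Real.pi * (conj (g (conj ζ)) * En m (ζ * z)) := by
  have h1 := congrArg conj (GI_hol hd hg m (conj z) (conj ζ))
  rw [← GI_conj] at h1
  have h2 : (fun w => conj (g w * En m (conj z * w) * En m (conj ζ * conj w))) =
      fun w => conj (g w) * En m (ζ * w) * En m (z * conj w) := by
    funext w
    rw [map_mul, map_mul, En_conj, En_conj, map_mul, map_mul, Complex.conj_conj, Complex.conj_conj,
      Complex.conj_conj]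
    ring
  rw [h2] at h1
  rw [h1, map_mul, map_mul, En_conj, map_mul, Complex.conj_conj, Complex.conj_conj,
    Complex.conj_ofReal, mul_comm z ζ]

/-- the projection in terms of the Gaussian integral -/
lemma Proj_eq (m : ℕ) (φ : ℂ → ℂ) (z : ℂ) :
    z ^ m * Proj m φ z = (Real.pi : ℂ)⁻¹ * GI (fun w => w ^ m * φ w * En m (z * conj w)) := by
  unfold Proj GI
  rw [← integral_const_mul, ← integral_const_mul]
  congr 1
  funext w
  have h1 := pow_mul_kap m (z * conj w)
  have h2 : (dens m w : ℂ) = w ^ m * conj w ^ m * gw w * (Real.pi : ℂ)⁻¹ * (m.factorial : ℂ)⁻¹ := by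
    unfold dens gw
    rw [← mul_pow, Complex.mul_conj, Complex.normSq_eq_norm_sq]
    push_cast
    rw [pow_mul]
    field_simp
  have h3 : (m.factorial : ℂ) ≠ 0 := by exact_mod_cast m.factorial_ne_zero
  rw [Ker_eq, h2]
  calc z ^ m * (φ w * kap m (z * conj w) * (w ^ m * conj w ^ m * gw w * (Real.pi : ℂ)⁻¹ *
        (m.factorial : ℂ)⁻¹))
      = ((z * conj w) ^ m * kap m (z * conj w)) * (m.factorial : ℂ)⁻¹ *
        ((Real.pi : ℂ)⁻¹ * (w ^ m * φ w * gw w)) := by rw [mul_pow]; ring
    _ = (Real.pi : ℂ)⁻¹ * (w ^ m * φ w * En m (z * conj w) * gw w) := by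
        rw [h1, mul_comm (m.factorial : ℂ), mul_assoc (En m _), mul_inv_cancel₀ h3]; ring

/-- `T_v K_a` for `v = h + conj g` -/
lemma Toep_ker {h g : ℂ → ℂ} (hhd : Differentiable ℂ h) (hh : EG h) (hgd : Differentiable ℂ g)
    (hg : EG g) (m : ℕ) {a z : ℂ} (ha : a ≠ 0) (hz : z ≠ 0) :
    Toep m (fun w => h w + conj (g w)) (fun w => Ker m w a) z =
      (h z + conj (g a)) * kap m (z * conj a) := by
  have hca : conj a ≠ 0 := by simpa using ha
  have hza : (conj a) ^ m * z ^ m ≠ 0 := mul_ne_zero (pow_ne_zero _ hca) (pow_ne_zero _ hz)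
  apply mul_left_cancel₀ hza
  unfold Toep
  rw [mul_assoc, Proj_eq, mul_left_comm, ← GI_smul]
  have h1 : (fun w => conj a ^ m * (w ^ m * ((h w + conj (g w)) * Ker m w a) * En m (z * conj w))) =
      fun w => (m.factorial : ℂ) * (h w * En m (conj a * w) * En m (z * conj w) +
        conj (g w) * En m (conj a * w) * En m (z * conj w)) := by
    funext w
    have h2 := pow_mul_kap m (w * conj a)
    rw [Ker_eq]
    calc conj a ^ m * (w ^ m * ((h w + conj (g w)) * kap m (w * conj a)) * En m (z * conj w))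
        = ((w * conj a) ^ m * kap m (w * conj a)) * ((h w + conj (g w)) * En m (z * conj w)) := by
          rw [mul_pow]; ring
      _ = _ := by rw [h2, mul_comm w]; ring
  rw [h1, GI_smul, GI_add ((hh.mul (En_mul_eg m _)).mul (En_conj_eg m _))
    ((hg.conj.mul (En_mul_eg m _)).mul (En_conj_eg m _)), GI_hol hhd hh, GI_antihol hgd hg,
    Complex.conj_conj]
  have hpi : (Real.pi : ℂ) ≠ 0 := by exact_mod_cast Real.pi_ne_zero
  have h3 := pow_mul_kap m (z * conj a)
  calc (Real.pi : ℂ)⁻¹ * ((m.factorial : ℂ) * (Real.pi * (h z * En m (conj a * z)) +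
        Real.pi * (conj (g a) * En m (conj a * z))))
      = ((Real.pi : ℂ)⁻¹ * Real.pi) * ((h z + conj (g a)) * ((m.factorial : ℂ) * En m (z * conj a))) := by
        rw [mul_comm z]; ring
    _ = _ := by rw [inv_mul_cancel₀ hpi, ← h3, mul_pow]; ring

/-- the vanishing of `T_u T_v K_a` in terms of Gaussian integrals -/
lemma key_vanish {h g u : ℂ → ℂ} (hhd : Differentiable ℂ h) (hh : EG h)
    (hgd : Differentiable ℂ g) (hg : EG g) (m : ℕ) {a z : ℂ} (ha : a ≠ 0)
    (H : Toep m u (Toep m (fun w => h w + conj (g w)) (fun w => Ker m w a)) z = 0) :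
    GI (fun w => u w * (h w + conj (g a)) * En m (conj a * w) * En m (z * conj w)) = 0 := by
  have hca : conj a ≠ 0 := by simpa using ha
  have h1 : z ^ m * Toep m u (Toep m (fun w => h w + conj (g w)) (fun w => Ker m w a)) z = 0 := by
    rw [H, mul_zero]
  unfold Toep at h1
  rw [Proj_eq] at h1
  have hpi : (Real.pi : ℂ)⁻¹ ≠ 0 := inv_ne_zero (by exact_mod_cast Real.pi_ne_zero)
  have h2 := (mul_eq_zero.1 h1).resolve_left hpi
  have h3 : (m.factorial : ℂ) ≠ 0 := by exact_mod_cast m.factorial_ne_zero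
  have h4 : (m.factorial : ℂ) * GI (fun w => u w * (h w + conj (g a)) * En m (conj a * w) *
      En m (z * conj w)) = conj a ^ m * GI (fun w => w ^ m * (u w *
        Proj m (fun w => (fun w => h w + conj (g w)) w * (fun w => Ker m w a) w) w) *
        En m (z * conj w)) := by
    rw [← GI_smul, ← GI_smul]
    unfold GI
    refine integral_congr_ae ?_
    filter_upwards [Measure.ae_ne volume (0 : ℂ)] with w hw
    have h5 := Toep_ker hhd hh hgd hg m ha hw
    unfold Toep at h5
    rw [h5]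
    have h6 := pow_mul_kap m (w * conj a)
    have h7 : conj a ^ m * (w ^ m * (u w * ((h w + conj (g a)) * kap m (w * conj a))) *
        En m (z * conj w)) * gw w = ((w * conj a) ^ m * kap m (w * conj a)) *
          (u w * (h w + conj (g a)) * En m (z * conj w)) * gw w := by rw [mul_pow]; ring
    rw [h7, h6, mul_comm w]
    ring
  rw [h2, mul_zero] at h4
  exact (mul_eq_zero.1 h4).resolve_left h3

end Pool.Agent.Q186.FS
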