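import Mathlib
import Pool.Agent.Q186.FS.Gauss
import Pool.Agent.Q186.FS.Repro
import Pool.Agent.Q186.FS.EP
import Pool.Agent.Q186.FS.Defs
import Pool.Agent.Q186.FS.Kernel

set_option autoImplicit false
set_option linter.unusedSectionVars false

open Filter Topology MeasureTheory Complex Polynomial
open scoped ComplexConjugate

namespace Pool.Agent.Q186.FS

/-- the Fock space Toeplitz operator with symbol `conj k` -/
noncomputable def Lam (k φ : ℂ → ℂ) (z : ℂ) : ℂ :=
  (Real.pi : ℂ)⁻¹ * GI (fun w => conj (k w) * φ w * cexp (z * conj w))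

lemma A1.ep {f : ℂ → ℂ} (hf : A1 f) : ∃ S : Finset ℂ, EP S f := by
  classical
  obtain ⟨N, p, a, h⟩ := hf
  refine ⟨Finset.univ.image fun j => conj (a j), ?_⟩
  rw [show f = _ from funext h]
  exact EP.sum _ fun j _ => EP.single (Finset.mem_image_of_mem _ (Finset.mem_univ j)) (p j)

lemma Lam_repr {k : ℂ → ℂ} (hk : A1 k) : ∃ (ι : Type) (s : Finset ι) (co : ι → ℂ) (n : ι → ℕ)
    (b : ι → ℂ), ∀ φ : ℂ → ℂ, Differentiable ℂ φ → EG φ → ∀ z,
      Lam k φ z = ∑ i ∈ s, co i * iteratedDeriv (n i) φ (z + b i) := by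
  obtain ⟨N, p, a, h⟩ := hk
  set M := (Finset.univ.sup fun j => (p j).natDegree) + 1 with hM
  refine ⟨Fin N × ℕ, Finset.univ ×ˢ Finset.range M, fun i => conj ((p i.1).coeff i.2),
    fun i => i.2, fun i => a i.1, fun φ hd hφ z => ?_⟩
  have hpi : (Real.pi : ℂ) ≠ 0 := by exact_mod_cast Real.pi_ne_zero
  have h1 : (fun w => conj (k w) * φ w * cexp (z * conj w)) = fun w =>
      ∑ i ∈ (Finset.univ : Finset (Fin N)) ×ˢ Finset.range M, conj ((p i.1).coeff i.2) *
        (conj w ^ i.2 * φ w * cexp ((z + a i.1) * conj w)) := by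
    funext w
    rw [h, map_sum, Finset.sum_product, Finset.sum_mul, Finset.sum_mul]
    refine Finset.sum_congr rfl fun j _ => ?_
    have h2 : (p j).natDegree < M := by
      rw [hM]
      exact Nat.lt_succ_of_le (Finset.le_sup (f := fun j => (p j).natDegree) (Finset.mem_univ j))
    rw [eval_eq_sum_range' h2, map_mul, map_sum, ← Complex.exp_conj, map_mul, Complex.conj_conj,
      Finset.sum_mul, Finset.sum_mul, Finset.sum_mul]
    refine Finset.sum_congr rfl fun i _ => ?_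
    rw [map_mul, map_pow, add_mul, Complex.exp_add]
    ring
  have hE : ∀ i ∈ (Finset.univ : Finset (Fin N)) ×ˢ Finset.range M,
      EG fun w => conj ((p i.1).coeff i.2) *
        (conj w ^ i.2 * φ w * cexp ((z + a i.1) * conj w)) := fun i _ =>
    (EG.const _).mul (((EG.id.conj.pow i.2).mul hφ).mul (EG.exp_conj _))
  unfold Lam
  rw [h1, GI_sum _ hE, Finset.mul_sum]
  refine Finset.sum_congr rfl fun i _ => ?_
  rw [GI_smul, GI_repro_deriv hd hφ]
  field_simp

lemma Lam_EP {k : ℂ → ℂ} (hk : A1 k) {S : Finset ℂ} {φ : ℂ → ℂ} (hφ : EP S φ) :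
    EP S (Lam k φ) := by
  obtain ⟨ι, s, co, n, b, h⟩ := Lam_repr hk
  rw [show Lam k φ = _ from funext (h φ hφ.differentiable hφ.eg)]
  exact EP.sum s fun i _ => ((hφ.iteratedDeriv (n i)).comp_add (b i)).smul (co i)

/-- polynomial functions of degree `< m` -/
def PD (m : ℕ) (φ : ℂ → ℂ) : Prop := ∃ p : ℂ[X], p.degree < m ∧ ∀ z, φ z = p.eval z

lemma PD.add {m : ℕ} {φ ψ : ℂ → ℂ} (hφ : PD m φ) (hψ : PD m ψ) : PD m fun z => φ z + ψ z := by
  obtain ⟨p, hp, h⟩ := hφ
  obtain ⟨q, hq, h'⟩ := hψ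
  exact ⟨p + q, (degree_add_le _ _).trans_lt (max_lt hp hq), fun z => by simp only [h, h', eval_add]⟩

lemma PD.smul {m : ℕ} {φ : ℂ → ℂ} (c : ℂ) (hφ : PD m φ) : PD m fun z => c * φ z := by
  obtain ⟨p, hp, h⟩ := hφ
  refine ⟨C c * p, ?_, fun z => by simp only [h, eval_mul, eval_C]⟩
  rw [← smul_eq_C_mul]
  exact (degree_smul_le c p).trans_lt hp

lemma PD.zero (m : ℕ) : PD m fun _ => 0 := ⟨0, by rw [degree_zero]; exact WithBot.bot_lt_coe _, fun z => by simp⟩

lemma PD.sum {m : ℕ} {ι : Type*} (s : Finset ι) {φ : ι → ℂ → ℂ} (h : ∀ i ∈ s, PD m (φ i)) :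
    PD m fun z => ∑ i ∈ s, φ i z := by
  classical
  induction s using Finset.induction_on with
  | empty => simpa using PD.zero m
  | insert i s hi ih =>
    simp only [Finset.sum_insert hi]
    exact (h i (Finset.mem_insert_self _ _)).add (ih fun j hj => h j (Finset.mem_insert_of_mem hj))

lemma PD.pow {m j : ℕ} (hj : j < m) : PD m fun z => z ^ j :=
  ⟨X ^ j, by rw [degree_X_pow]; exact_mod_cast hj, fun z => by simp⟩

lemma PD.deriv {m : ℕ} {φ : ℂ → ℂ} (hφ : PD m φ) : PD m (deriv φ) := by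
  obtain ⟨p, hp, h⟩ := hφ
  refine ⟨p.derivative, (degree_derivative_le).trans_lt hp, fun z => ?_⟩
  rw [show φ = _ from funext h]
  exact p.deriv

lemma PD.iteratedDeriv {m : ℕ} {φ : ℂ → ℂ} (hφ : PD m φ) (n : ℕ) : PD m (iteratedDeriv n φ) := by
  induction n with
  | zero => simpa [iteratedDeriv_zero] using hφ
  | succ n ih => rw [iteratedDeriv_succ]; exact ih.deriv

lemma PD.comp_add {m : ℕ} {φ : ℂ → ℂ} (c : ℂ) (hφ : PD m φ) : PD m fun z => φ (z + c) := by
  obtain ⟨p, hp, h⟩ := hφ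
  refine ⟨p.comp (X + C c), ?_, fun z => by simp only [h, eval_comp, eval_add, eval_X, eval_C]⟩
  by_cases h0 : p = 0
  · rw [h0, zero_comp, degree_zero]; exact WithBot.bot_lt_coe _
  · have h1 : (p.comp (X + C c)).natDegree = p.natDegree := by
      rw [natDegree_comp, natDegree_X_add_C, mul_one]
    rw [degree_eq_natDegree h0] at hp
    refine degree_le_natDegree.trans_lt ?_
    rw [h1]; exact hp

lemma PD.eg {m : ℕ} {φ : ℂ → ℂ} (hφ : PD m φ) : EG φ ∧ Differentiable ℂ φ := by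
  obtain ⟨p, hp, h⟩ := hφ
  rw [show φ = _ from funext h]
  exact ⟨EG.poly p, p.differentiable⟩

lemma Lam_PD {k : ℂ → ℂ} (hk : A1 k) {m : ℕ} {φ : ℂ → ℂ} (hφ : PD m φ) : PD m (Lam k φ) := by
  obtain ⟨ι, s, co, n, b, h⟩ := Lam_repr hk
  rw [show Lam k φ = _ from funext (h φ hφ.eg.2 hφ.eg.1)]
  exact PD.sum s fun i _ => ((hφ.iteratedDeriv (n i)).comp_add (b i)).smul (co i)

/-- pointwise limits of polynomials of degree `< m` -/
lemma PD.lim {m : ℕ} {q : ℕ → ℂ → ℂ} {L : ℂ → ℂ} (hq : ∀ n, PD m (q n))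
    (hL : ∀ z, Tendsto (fun n => q n z) atTop (𝓝 (L z))) : PD m L := by
  classical
  have hinj : Set.InjOn (fun i : ℕ => (i : ℂ)) (Finset.range m) := fun a _ b _ h => by
    have h' : (a : ℂ) = (b : ℂ) := h
    exact_mod_cast h'
  refine ⟨Lagrange.interpolate (Finset.range m) (fun i : ℕ => (i : ℂ)) (fun i => L (i : ℂ)), ?_,
    fun z => ?_⟩
  · have := Lagrange.degree_interpolate_lt (s := Finset.range m) (v := fun i : ℕ => (i : ℂ))
      (fun i => L (i : ℂ)) hinj
    simpa using this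
  · have h1 : ∀ n, q n z = ∑ i ∈ Finset.range m, q n (i : ℂ) *
        (Lagrange.basis (Finset.range m) (fun i : ℕ => (i : ℂ)) i).eval z := by
      intro n
      obtain ⟨p, hp, h⟩ := hq n
      have h2 := Lagrange.eq_interpolate_of_eval_eq (s := Finset.range m)
        (v := fun i : ℕ => (i : ℂ)) (fun i => q n (i : ℂ)) hinj (f := p)
        (by simpa using hp) (fun i _ => (h i).symm)
      have h3 : q n z = p.eval z := h z
      rw [h3]
      conv_lhs => rw [h2]
      rw [Lagrange.interpolate_apply, eval_finsetSum]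
      exact Finset.sum_congr rfl fun i _ => by rw [eval_mul, eval_C]
    have h4 : Tendsto (fun n => q n z) atTop (𝓝 (∑ i ∈ Finset.range m, L (i : ℂ) *
        (Lagrange.basis (Finset.range m) (fun i : ℕ => (i : ℂ)) i).eval z)) := by
      simp only [h1]
      exact tendsto_finsetSum _ fun i _ => (hL i).mul_const _
    rw [Lagrange.interpolate_apply, eval_finsetSum]
    rw [tendsto_nhds_unique (hL z) h4]
    exact Finset.sum_congr rfl fun i _ => by rw [eval_mul, eval_C]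

/-- linearity of `Lam` -/
lemma Lam_add {k φ ψ : ℂ → ℂ} (hk : EG k) (hφ : EG φ) (hψ : EG ψ) (z : ℂ) :
    Lam k (fun w => φ w + ψ w) z = Lam k φ z + Lam k ψ z := by
  unfold Lam
  rw [← mul_add, ← GI_add ((hk.conj.mul hφ).mul (EG.exp_conj z))
    ((hk.conj.mul hψ).mul (EG.exp_conj z))]
  congr 2
  funext w; ring

lemma Lam_sub {k φ ψ : ℂ → ℂ} (hk : EG k) (hφ : EG φ) (hψ : EG ψ) (z : ℂ) :
    Lam k (fun w => φ w - ψ w) z = Lam k φ z - Lam k ψ z := by
  unfold Lam
  rw [← mul_sub, ← GI_sub ((hk.conj.mul hφ).mul (EG.exp_conj z))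
    ((hk.conj.mul hψ).mul (EG.exp_conj z))]
  congr 2
  funext w; ring

lemma Lam_smul {k φ : ℂ → ℂ} (c z : ℂ) : Lam k (fun w => c * φ w) z = c * Lam k φ z := by
  unfold Lam
  rw [mul_left_comm, ← GI_smul c]
  congr 2
  funext w; ring

lemma Lam_sum {k : ℂ → ℂ} (hk : EG k) {ι : Type*} (s : Finset ι) {φ : ι → ℂ → ℂ}
    (h : ∀ i ∈ s, EG (φ i)) (z : ℂ) :
    Lam k (fun w => ∑ i ∈ s, φ i w) z = ∑ i ∈ s, Lam k (φ i) z := by
  unfold Lam
  rw [← Finset.mul_sum, ← GI_sum s fun i hi => (hk.conj.mul (h i hi)).mul (EG.exp_conj z)]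
  congr 2
  funext w
  rw [Finset.mul_sum, Finset.sum_mul]

end Pool.Agent.Q186.FS
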