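import Mathlib
import Pool.Agent.Q186.FS.Gauss
import Pool.Agent.Q186.FS.Repro
import Pool.Agent.Q186.FS.EP
import Pool.Agent.Q186.FS.Defs
import Pool.Agent.Q186.FS.Kernel
import Pool.Agent.Q186.FS.Lam

set_option autoImplicit false
set_option linter.unusedSectionVars false

open Filter Topology MeasureTheory Complex Polynomial
open scoped ComplexConjugate Pointwise

namespace Pool.Agent.Q186.FS

lemma pi_ne : (Real.pi : ℂ) ≠ 0 := by exact_mod_cast Real.pi_ne_zero

/-- `GI` of `conj k` times something against `exp (z conj w)` -/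
lemma GI_Lam (k φ : ℂ → ℂ) (z : ℂ) :
    GI (fun w => conj (k w) * φ w * cexp (z * conj w)) = Real.pi * Lam k φ z := by
  unfold Lam
  rw [← mul_assoc, mul_inv_cancel₀ pi_ne, one_mul]

/-- The main identity for fixed `ζ` and `c`: if the Gaussian integral vanishes, then the
`e^{ζ z}` part equals the polynomial part. -/
lemma split {f h k : ℂ → ℂ} (hfd : Differentiable ℂ f) (hf : EG f) (hhd : Differentiable ℂ h)
    (hh : EG h) (hk : EG k) (m : ℕ) (ζ c : ℂ) : ∃ p : ℂ → ℂ, PD m p ∧ ∀ z,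
      GI (fun w => (f w + conj (k w)) * (h w + c) * En m (ζ * w) * En m (z * conj w)) = 0 →
      f z * (h z + c) * cexp (ζ * z) + Lam k (fun w => (h w + c) * cexp (ζ * w)) z =
        f z * (h z + c) * sm m (ζ * z) + Lam k (fun w => (h w + c) * sm m (ζ * w)) z + p z := by
  have hH : EG fun w => h w + c := hh.add (EG.const c)
  have hHE : EG fun w => (h w + c) * En m (ζ * w) := hH.mul (En_mul_eg m ζ)
  refine ⟨fun z => ∑ j ∈ Finset.range m, ((Real.pi : ℂ)⁻¹ * ((j.factorial : ℂ)⁻¹ *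
    GI (fun w => conj (k w) * ((h w + c) * En m (ζ * w)) * conj w ^ j))) * z ^ j,
    PD.sum _ fun j hj => (PD.pow (Finset.mem_range.1 hj)).smul _, fun z hz => ?_⟩
  have e1 : EG fun w => f w * (h w + c) * En m (ζ * w) * En m (z * conj w) :=
    ((hf.mul hH).mul (En_mul_eg m ζ)).mul (En_conj_eg m z)
  have e2 : EG fun w => conj (k w) * ((h w + c) * En m (ζ * w)) * cexp (z * conj w) :=
    (hk.conj.mul hHE).mul (EG.exp_conj z)
  have e3 : ∀ j ∈ Finset.range m, EG fun w => ((j.factorial : ℂ)⁻¹ * z ^ j) *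
      (conj (k w) * ((h w + c) * En m (ζ * w)) * conj w ^ j) := fun j _ =>
    (EG.const _).mul ((hk.conj.mul hHE).mul (EG.id.conj.pow j))
  have h1 : (fun w => (f w + conj (k w)) * (h w + c) * En m (ζ * w) * En m (z * conj w)) =
      fun w => f w * (h w + c) * En m (ζ * w) * En m (z * conj w) +
        (conj (k w) * ((h w + c) * En m (ζ * w)) * cexp (z * conj w) -
          ∑ j ∈ Finset.range m, ((j.factorial : ℂ)⁻¹ * z ^ j) *
            (conj (k w) * ((h w + c) * En m (ζ * w)) * conj w ^ j)) := by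
    funext w
    have h2 : En m (z * conj w) = cexp (z * conj w) - ∑ j ∈ Finset.range m,
        ((j.factorial : ℂ)⁻¹ * z ^ j) * conj w ^ j := by
      unfold En sm
      congr 1
      refine Finset.sum_congr rfl fun j _ => ?_
      rw [mul_pow]; ring
    have h3 : ∑ j ∈ Finset.range m, ((j.factorial : ℂ)⁻¹ * z ^ j) *
        (conj (k w) * ((h w + c) * En m (ζ * w)) * conj w ^ j) =
        (conj (k w) * ((h w + c) * En m (ζ * w))) * ∑ j ∈ Finset.range m,
          ((j.factorial : ℂ)⁻¹ * z ^ j) * conj w ^ j := by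
      rw [Finset.mul_sum]
      exact Finset.sum_congr rfl fun j _ => by ring
    rw [h3]
    have h4 : conj (k w) * ((h w + c) * En m (ζ * w)) * cexp (z * conj w) -
        (conj (k w) * ((h w + c) * En m (ζ * w))) * ∑ j ∈ Finset.range m,
          ((j.factorial : ℂ)⁻¹ * z ^ j) * conj w ^ j =
        (conj (k w) * ((h w + c) * En m (ζ * w))) * En m (z * conj w) := by
      rw [h2]; ring
    rw [h4]; ring
  rw [h1, GI_add e1 (e2.sub (EG.sum _ e3)), GI_sub e2 (EG.sum _ e3), GI_sum _ e3, GI_Lam] at hz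
  have h5 : GI (fun w => f w * (h w + c) * En m (ζ * w) * En m (z * conj w)) =
      Real.pi * (f z * (h z + c) * En m (ζ * z)) :=
    GI_hol (h := fun w => f w * (h w + c)) (hfd.mul (hhd.add_const c)) (hf.mul hH) m ζ z
  rw [h5] at hz
  have h6 : Lam k (fun w => (h w + c) * En m (ζ * w)) z =
      Lam k (fun w => (h w + c) * cexp (ζ * w)) z - Lam k (fun w => (h w + c) * sm m (ζ * w)) z := by
    rw [← Lam_sub hk (hH.mul (EG.exp ζ)) (hH.mul (sm_eg ((EG.const ζ).mul EG.id) m))]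
    congr 1
    funext w
    unfold En; ring
  have h7 : ∑ j ∈ Finset.range m, GI (fun w => ((j.factorial : ℂ)⁻¹ * z ^ j) *
      (conj (k w) * ((h w + c) * En m (ζ * w)) * conj w ^ j)) = Real.pi *
      ∑ j ∈ Finset.range m, ((Real.pi : ℂ)⁻¹ * ((j.factorial : ℂ)⁻¹ *
        GI (fun w => conj (k w) * ((h w + c) * En m (ζ * w)) * conj w ^ j))) * z ^ j := by
    rw [Finset.mul_sum]
    refine Finset.sum_congr rfl fun j _ => ?_
    rw [GI_smul]
    have := pi_ne
    field_simp
  rw [h7, h6] at hz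
  have h8 : (Real.pi : ℂ) * ((f z * (h z + c) * cexp (ζ * z) +
      Lam k (fun w => (h w + c) * cexp (ζ * w)) z) -
      (f z * (h z + c) * sm m (ζ * z) + Lam k (fun w => (h w + c) * sm m (ζ * w)) z +
        ∑ j ∈ Finset.range m, ((Real.pi : ℂ)⁻¹ * ((j.factorial : ℂ)⁻¹ *
        GI (fun w => conj (k w) * ((h w + c) * En m (ζ * w)) * conj w ^ j))) * z ^ j)) = 0 := by
    rw [← hz]
    unfold En; ring
  exact sub_eq_zero.1 ((mul_eq_zero.1 h8).resolve_left pi_ne)

lemma PD.ep {m : ℕ} {φ : ℂ → ℂ} {S : Finset ℂ} (h0 : (0 : ℂ) ∈ S) (h : PD m φ) : EP S φ := by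
  obtain ⟨p, _, h⟩ := h
  rw [show φ = _ from funext h]
  exact EP.poly h0 p

lemma sm_poly (m : ℕ) (ζ : ℂ) : ∃ p : ℂ[X], ∀ z, sm m (ζ * z) = p.eval z := by
  refine ⟨∑ j ∈ Finset.range m, C (ζ ^ j / (j.factorial : ℂ)) * X ^ j, fun z => ?_⟩
  unfold sm
  rw [eval_finsetSum]
  refine Finset.sum_congr rfl fun j _ => ?_
  rw [eval_mul, eval_C, eval_pow, eval_X, mul_pow]; ring

/-- separation of the exponential part, for all `ζ` outside a finite set -/
lemma separate {f h k : ℂ → ℂ} {Sf Sh : Finset ℂ} (hf : EP Sf f) (hh : EP Sh h) (hk : A1 k)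
    (m : ℕ) : ∃ Z : Finset ℂ, ∀ ζ, ζ ∉ Z → ∀ c : ℂ,
      (∀ z, z ≠ 0 → GI (fun w => (f w + conj (k w)) * (h w + c) * En m (ζ * w) *
        En m (z * conj w)) = 0) →
      (∀ z, f z * (h z + c) * cexp (ζ * z) + Lam k (fun w => (h w + c) * cexp (ζ * w)) z = 0) ∧
      ∃ p : ℂ → ℂ, PD m p ∧ ∀ z, f z * (h z + c) * sm m (ζ * z) +
        Lam k (fun w => (h w + c) * sm m (ζ * w)) z + p z = 0 := by
  classical
  obtain ⟨Sk, hkS⟩ := hk.ep
  set T : Finset ℂ := insert 0 Sh with hT
  set S : Finset ℂ := (Sf + T) ∪ T with hS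
  have h0T : (0 : ℂ) ∈ T := Finset.mem_insert_self _ _
  have h0S : (0 : ℂ) ∈ S := Finset.mem_union_right _ h0T
  refine ⟨(S ×ˢ S).image fun p => p.2 - p.1, fun ζ hζ c H => ?_⟩
  have hH : EP T fun w => h w + c := by
    have h1 := (hh.mono (Finset.subset_insert 0 Sh)).add
      (EP.poly (S := T) h0T (C c))
    simpa using h1
  obtain ⟨p, hp, hsp⟩ := split hf.differentiable hf.eg hh.differentiable hh.eg hkS.eg m ζ c
  have hL : EP (S.image (· + ζ)) fun z => f z * (h z + c) * cexp (ζ * z) +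
      Lam k (fun w => (h w + c) * cexp (ζ * w)) z := by
    have h1 := (hf.mul hH).mul_exp ζ
    have h2 := Lam_EP hk (hH.mul_exp ζ)
    exact (h1.mono (Finset.image_subset_image Finset.subset_union_left)).add
      (h2.mono (Finset.image_subset_image Finset.subset_union_right))
  have hR : EP S fun z => f z * (h z + c) * sm m (ζ * z) +
      Lam k (fun w => (h w + c) * sm m (ζ * w)) z + p z := by
    obtain ⟨P, hP⟩ := sm_poly m ζ
    have h1 : EP (Sf + T) fun z => f z * (h z + c) * sm m (ζ * z) := by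
      have := (hf.mul hH).poly_mul P
      refine (show EP (Sf + T) _ from this) |> fun h => ?_
      obtain ⟨Q, hQ⟩ := h
      exact ⟨Q, fun z => by rw [← hQ z]; simp only [hP]; ring⟩
    have h2 : EP T fun w => (h w + c) * sm m (ζ * w) := by
      obtain ⟨Q, hQ⟩ := hH.poly_mul P
      exact ⟨Q, fun z => by rw [← hQ z]; simp only [hP]; ring⟩
    have h3 := Lam_EP hk h2
    exact ((h1.mono Finset.subset_union_left).add (h3.mono Finset.subset_union_right)).add
      (hp.ep h0S)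
  have hcont : ∀ z, f z * (h z + c) * cexp (ζ * z) + Lam k (fun w => (h w + c) * cexp (ζ * w)) z =
      f z * (h z + c) * sm m (ζ * z) + Lam k (fun w => (h w + c) * sm m (ζ * w)) z + p z := by
    have h1 := hL.differentiable.continuous
    have h2 := hR.differentiable.continuous
    have h3 := Continuous.ext_on (dense_compl_singleton (0 : ℂ)) h1 h2
      (fun z hz => hsp z (H z hz))
    exact fun z => congrFun h3 z
  have hdisj : Disjoint (S.image (· + ζ)) S := by
    rw [Finset.disjoint_left]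
    intro x hx hx'
    obtain ⟨s, hs, rfl⟩ := Finset.mem_image.1 hx
    apply hζ
    rw [Finset.mem_image]
    exact ⟨(s, s + ζ), Finset.mem_product.2 ⟨hs, hx'⟩, by simp⟩
  have hL0 := EP.eq_zero_of_disjoint hdisj hL (φ := fun z => f z * (h z + c) * cexp (ζ * z) +
      Lam k (fun w => (h w + c) * cexp (ζ * w)) z) (by
    obtain ⟨Q, hQ⟩ := hR
    exact ⟨Q, fun z => by rw [← hQ z]; exact hcont z⟩)
  exact ⟨hL0, p, hp, fun z => by rw [← hcont z]; exact hL0 z⟩

/-- the polynomial part forces `f` or `g` to be constant -/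
lemma const_of_poly {f h k : ℂ → ℂ} (hfd : Differentiable ℂ f) (hh : EG h) (hk : A1 k)
    {m : ℕ} (hm : 1 ≤ m) {ζ c : ℕ → ℂ} (hζ : Tendsto (fun n => ‖ζ n‖) atTop atTop)
    (hc : Tendsto (fun n => ‖c n‖) atTop atTop)
    (H : ∀ n, ∃ p : ℂ → ℂ, PD m p ∧ ∀ z, f z * (h z + c n) * sm m (ζ n * z) +
        Lam k (fun w => (h w + c n) * sm m (ζ n * w)) z + p z = 0) : ∀ z, f z = f 0 := by
  obtain ⟨Sk, hkS⟩ := hk.ep
  have hkE := hkS.eg
  choose p hp hpe using H
  have hζ0 : Tendsto (fun n => (ζ n)⁻¹) atTop (𝓝 0) := by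
    rw [tendsto_zero_iff_norm_tendsto_zero]
    simp only [norm_inv]
    exact tendsto_inv_atTop_zero.comp hζ
  have hc0 : Tendsto (fun n => (c n)⁻¹) atTop (𝓝 0) := by
    rw [tendsto_zero_iff_norm_tendsto_zero]
    simp only [norm_inv]
    exact tendsto_inv_atTop_zero.comp hc
  have hζne : ∀ᶠ n in atTop, ζ n ≠ 0 := by
    filter_upwards [hζ.eventually_gt_atTop 0] with n hn
    exact norm_pos_iff.1 hn
  have hcne : ∀ᶠ n in atTop, c n ≠ 0 := by
    filter_upwards [hc.eventually_gt_atTop 0] with n hn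
    exact norm_pos_iff.1 hn
  obtain ⟨M, rfl⟩ : ∃ M, m = M + 1 := ⟨m - 1, by omega⟩
  -- the normalised polynomial part
  set q : ℕ → ℂ → ℂ := fun n z => (-(ζ n)⁻¹ ^ M) * (Lam k (fun w => sm (M + 1) (ζ n * w)) z) +
    (-((c n)⁻¹ * (ζ n)⁻¹ ^ M)) * p n z with hq
  have hsmPD : ∀ ζ : ℂ, PD (M + 1) fun w => sm (M + 1) (ζ * w) := by
    intro ζ
    have : (fun w => sm (M + 1) (ζ * w)) = fun w => ∑ j ∈ Finset.range (M + 1),
        (ζ ^ j / (j.factorial : ℂ)) * w ^ j := by
      funext w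
      unfold sm
      exact Finset.sum_congr rfl fun j _ => by rw [mul_pow]; ring
    rw [this]
    exact PD.sum _ fun j hj => (PD.pow (Finset.mem_range.1 hj)).smul _
  have hqPD : ∀ n, PD (M + 1) (q n) := fun n =>
    ((Lam_PD hk (hsmPD (ζ n))).smul _).add ((hp n).smul _)
  -- the limit of the normalised partial sums
  have hsmlim : ∀ z : ℂ, Tendsto (fun n => (ζ n)⁻¹ ^ M * sm (M + 1) (ζ n * z)) atTop
      (𝓝 (z ^ M / (M.factorial : ℂ))) := by
    intro z
    have h1 : Tendsto (fun n => ∑ j ∈ Finset.range (M + 1),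
        (ζ n)⁻¹ ^ (M - j) * (z ^ j / (j.factorial : ℂ))) atTop
        (𝓝 (∑ j ∈ Finset.range (M + 1), (if j = M then 1 else 0) * (z ^ j / (j.factorial : ℂ)))) := by
      refine tendsto_finsetSum _ fun j hj => Tendsto.mul_const _ ?_
      by_cases hjM : j = M
      · subst hjM
        simp
      · rw [if_neg hjM]
        have h2 : M - j ≠ 0 := by
          have := Finset.mem_range.1 hj
          omega
        have h3 := hζ0.pow (M - j)
        rwa [zero_pow h2] at h3
    have h4 : ∑ j ∈ Finset.range (M + 1), (if j = M then (1 : ℂ) else 0) *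
        (z ^ j / (j.factorial : ℂ)) = z ^ M / (M.factorial : ℂ) := by
      rw [Finset.sum_eq_single M]
      · rw [if_pos rfl, one_mul]
      · intro j _ hj; rw [if_neg hj, zero_mul]
      · intro h; exact absurd (Finset.self_mem_range_succ M) h
    rw [h4] at h1
    refine h1.congr' ?_
    filter_upwards [hζne] with n hn
    unfold sm
    rw [Finset.mul_sum]
    refine Finset.sum_congr rfl fun j hj => ?_
    have hjM : j ≤ M := by have := Finset.mem_range.1 hj; omega
    have h5 : (ζ n)⁻¹ ^ M = (ζ n)⁻¹ ^ (M - j) * (ζ n)⁻¹ ^ j := by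
      rw [← pow_add]; congr 1; omega
    have h6 : (ζ n)⁻¹ ^ j * ζ n ^ j = 1 := by rw [← mul_pow, inv_mul_cancel₀ hn, one_pow]
    rw [h5, mul_pow]
    calc (ζ n)⁻¹ ^ (M - j) * (z ^ j / (j.factorial : ℂ))
        = (ζ n)⁻¹ ^ (M - j) * ((ζ n)⁻¹ ^ j * ζ n ^ j) * (z ^ j / (j.factorial : ℂ)) := by
          rw [h6, mul_one]
      _ = _ := by ring
  have hlim : ∀ z, Tendsto (fun n => q n z) atTop (𝓝 (f z * (z ^ M / (M.factorial : ℂ)))) := by
    intro z
    -- the part with `h`
    have hE : ∀ j ∈ Finset.range (M + 1), EG fun w => (j.factorial : ℂ)⁻¹ * (h w * w ^ j) :=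
      fun j _ => (EG.const _).mul (hh.mul (EG.id.pow j))
    have h7 : ∀ n, Lam k (fun w => h w * sm (M + 1) (ζ n * w)) z =
        ∑ j ∈ Finset.range (M + 1), ζ n ^ j * Lam k (fun w => (j.factorial : ℂ)⁻¹ * (h w * w ^ j)) z := by
      intro n
      have h8 : (fun w => h w * sm (M + 1) (ζ n * w)) = fun w => ∑ j ∈ Finset.range (M + 1),
          ζ n ^ j * ((j.factorial : ℂ)⁻¹ * (h w * w ^ j)) := by
        funext w
        unfold sm
        rw [Finset.mul_sum]
        exact Finset.sum_congr rfl fun j _ => by rw [mul_pow]; ring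
      rw [h8, Lam_sum hkE _ fun j hj => (EG.const _).mul (hE j hj)]
      exact Finset.sum_congr rfl fun j _ => Lam_smul _ _
    have h9 : Tendsto (fun n => (c n)⁻¹ * ((ζ n)⁻¹ ^ M *
        Lam k (fun w => h w * sm (M + 1) (ζ n * w)) z)) atTop (𝓝 0) := by
      have h10 : Tendsto (fun n => ∑ j ∈ Finset.range (M + 1), (ζ n)⁻¹ ^ (M - j) *
          Lam k (fun w => (j.factorial : ℂ)⁻¹ * (h w * w ^ j)) z) atTop
          (𝓝 (∑ j ∈ Finset.range (M + 1), (0 : ℂ) ^ (M - j) *
          Lam k (fun w => (j.factorial : ℂ)⁻¹ * (h w * w ^ j)) z)) :=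
        tendsto_finsetSum _ fun j _ => (hζ0.pow (M - j)).mul_const _
      have h11 := hc0.mul h10
      rw [zero_mul] at h11
      refine h11.congr' ?_
      filter_upwards [hζne] with n hn
      rw [h7]
      congr 1
      rw [Finset.mul_sum]
      refine Finset.sum_congr rfl fun j hj => ?_
      have hjM : j ≤ M := by have := Finset.mem_range.1 hj; omega
      have h5 : (ζ n)⁻¹ ^ M = (ζ n)⁻¹ ^ (M - j) * (ζ n)⁻¹ ^ j := by
        rw [← pow_add]; congr 1; omega
      have h6 : (ζ n)⁻¹ ^ j * ζ n ^ j = 1 := by rw [← mul_pow, inv_mul_cancel₀ hn, one_pow]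
      rw [h5]
      calc (ζ n)⁻¹ ^ (M - j) * Lam k (fun w => (j.factorial : ℂ)⁻¹ * (h w * w ^ j)) z
          = (ζ n)⁻¹ ^ (M - j) * ((ζ n)⁻¹ ^ j * ζ n ^ j) *
            Lam k (fun w => (j.factorial : ℂ)⁻¹ * (h w * w ^ j)) z := by rw [h6, mul_one]
        _ = _ := by ring
    have h12 : Tendsto (fun n => f z * (h z * (c n)⁻¹ + 1) * ((ζ n)⁻¹ ^ M *
        sm (M + 1) (ζ n * z)) + (c n)⁻¹ * ((ζ n)⁻¹ ^ M *
        Lam k (fun w => h w * sm (M + 1) (ζ n * w)) z)) atTop
        (𝓝 (f z * (h z * 0 + 1) * (z ^ M / (M.factorial : ℂ)) + 0)) :=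
      ((((hc0.const_mul (h z)).add_const 1).const_mul (f z)).mul (hsmlim z)).add h9
    rw [mul_zero, zero_add, mul_one, add_zero] at h12
    refine h12.congr' ?_
    filter_upwards [hcne] with n hn
    have h13 := hpe n z
    have h14 : Lam k (fun w => (h w + c n) * sm (M + 1) (ζ n * w)) z =
        Lam k (fun w => h w * sm (M + 1) (ζ n * w)) z +
          c n * Lam k (fun w => sm (M + 1) (ζ n * w)) z := by
      rw [← Lam_smul, ← Lam_add hkE (hh.mul (sm_eg ((EG.const _).mul EG.id) _))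
        ((EG.const _).mul (sm_eg ((EG.const _).mul EG.id) _))]
      congr 1
      funext w; ring
    rw [h14] at h13
    rw [hq]
    simp only
    have h15 : (c n)⁻¹ * c n = 1 := inv_mul_cancel₀ hn
    have h16 : (c n)⁻¹ * (ζ n)⁻¹ ^ M * (f z * (h z + c n) * sm (M + 1) (ζ n * z) +
        (Lam k (fun w => h w * sm (M + 1) (ζ n * w)) z +
          c n * Lam k (fun w => sm (M + 1) (ζ n * w)) z) + p n z) = 0 := by
      rw [h13, mul_zero]
    linear_combination h16 + ((ζ n)⁻¹ ^ M * f z * sm (M + 1) (ζ n * z) * (-1) -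
      (ζ n)⁻¹ ^ M * Lam k (fun w => sm (M + 1) (ζ n * w)) z) * h15
  obtain ⟨P, hPd, hP⟩ := PD.lim hqPD hlim
  -- `f` is bounded
  have hPdeg : P.natDegree ≤ M := by
    by_cases h0 : P = 0
    · rw [h0, natDegree_zero]; exact Nat.zero_le _
    · rw [degree_eq_natDegree h0] at hPd
      have : P.natDegree < M + 1 := by exact_mod_cast hPd
      omega
  have hfac : (M.factorial : ℂ) ≠ 0 := by exact_mod_cast M.factorial_ne_zero
  set B : ℝ := ∑ j ∈ Finset.range (M + 1), ‖P.coeff j‖ with hB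
  have hlarge : ∀ z : ℂ, 1 ≤ ‖z‖ → ‖f z‖ ≤ M.factorial * B := by
    intro z hz
    have h1 : f z * z ^ M = M.factorial * P.eval z := by
      rw [← hP z]; field_simp
    have h2 : ‖P.eval z‖ ≤ B * ‖z‖ ^ M := by
      rw [eval_eq_sum_range' (Nat.lt_succ_of_le hPdeg), hB, Finset.sum_mul]
      refine (norm_sum_le _ _).trans (Finset.sum_le_sum fun j hj => ?_)
      rw [norm_mul, norm_pow]
      exact mul_le_mul_of_nonneg_left (pow_le_pow_right₀ hz (by
        have := Finset.mem_range.1 hj; omega)) (norm_nonneg _)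
    have h3 : ‖f z‖ * ‖z‖ ^ M ≤ (M.factorial * B) * ‖z‖ ^ M := by
      rw [← norm_pow, ← norm_mul, h1, norm_mul, Complex.norm_natCast, norm_pow, mul_assoc]
      exact mul_le_mul_of_nonneg_left h2 (Nat.cast_nonneg _)
    exact le_of_mul_le_mul_right h3 (by positivity)
  have hbdd : Bornology.IsBounded (Set.range f) := by
    have h1 : IsCompact (f '' Metric.closedBall 0 1) :=
      (isCompact_closedBall 0 1).image hfd.continuous
    obtain ⟨R, hR⟩ := h1.isBounded.exists_norm_le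
    refine isBounded_iff_forall_norm_le.2 ⟨max R (M.factorial * B), ?_⟩
    rintro _ ⟨z, rfl⟩
    rcases le_total ‖z‖ 1 with hz | hz
    · exact (hR _ ⟨z, by simpa using hz, rfl⟩).trans (le_max_left _ _)
    · exact (hlarge z hz).trans (le_max_right _ _)
  intro z
  exact hfd.apply_eq_apply_of_bounded hbdd z 0

end Pool.Agent.Q186.FS
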