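import Mathlib
import Pool.Agent.Q186.FS.Gauss
import Pool.Agent.Q186.FS.Repro
import Pool.Agent.Q186.FS.EP
import Pool.Agent.Q186.FS.Defs
import Pool.Agent.Q186.FS.Kernel
import Pool.Agent.Q186.FS.Lam
import Pool.Agent.Q186.FS.Main

set_option autoImplicit false
set_option linter.unusedSectionVars false

open Filter Topology MeasureTheory Complex Polynomial
open scoped ComplexConjugate FourierTransform

namespace Pool.Agent.Q186.FS

/-- Fourier uniqueness: if the Gaussian integrals of `F` against the characters vanish outside a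
finite set, then `F = 0`. -/
lemma eq_zero_of_GI {F : ℂ → ℂ} (hF : EG F) (Z : Finset ℂ)
    (h : ∀ ξ : ℂ, ξ ∉ Z → GI (fun w => F w * cexp (-(Real.pi * I * conj ξ) * w) *
      cexp (-(Real.pi * I * ξ) * conj w)) = 0) : ∀ w, F w = 0 := by
  have hint : Integrable fun w => F w * gw w := hF.integrable
  have hcont : Continuous fun w => F w * gw w := hF.cont.mul gw_cont
  have h1 : ∀ ξ : ℂ, ξ ∉ Z → 𝓕 (fun w => F w * gw w) ξ = 0 := by
    intro ξ hξ
    rw [← h ξ hξ, Real.fourier_eq']
    unfold GI
    refine integral_congr_ae (Eventually.of_forall fun w => ?_)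
    simp only [smul_eq_mul]
    have h2 : cexp (((-2 * Real.pi * inner ℝ w ξ : ℝ) : ℂ) * I) =
        cexp (-(Real.pi * I * conj ξ) * w) * cexp (-(Real.pi * I * ξ) * conj w) := by
      rw [← Complex.exp_add]
      congr 1
      rw [Complex.inner]
      have h3 : (((ξ * conj w).re : ℝ) : ℂ) = (ξ * conj w + conj ξ * w) / 2 := by
        rw [Complex.re_eq_add_conj, map_mul, Complex.conj_conj]
      push_cast
      rw [h3]
      ring
    rw [h2]
    ring
  have h4 : 𝓕 (fun w => F w * gw w) =ᵐ[volume] 0 := by
    have h5 : (Z : Set ℂ)ᶜ ∈ ae (volume : Measure ℂ) := by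
      rw [mem_ae_iff, compl_compl]
      exact Z.finite_toSet.measure_zero _
    filter_upwards [h5] with ξ hξ
    exact h1 ξ (by simpa using hξ)
  have h6 : Integrable (𝓕 (fun w => F w * gw w)) :=
    (integrable_zero ℂ ℂ volume).congr h4.symm
  have h7 := hcont.fourierInv_fourier_eq hint h6
  intro w
  have h8 := congrFun h7 w
  rw [Real.fourierInv_eq'] at h8
  have h9 : ∫ v : ℂ, cexp (((2 * Real.pi * inner ℝ v w : ℝ) : ℂ) * I) •
      𝓕 (fun w => F w * gw w) v = 0 := by
    rw [integral_congr_ae (g := fun _ => (0 : ℂ))]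
    · simp
    · filter_upwards [h4] with v hv
      rw [hv]; simp
  rw [h9] at h8
  have h10 : gw w ≠ 0 := by
    rw [← norm_ne_zero_iff, gw_norm]; exact (Real.exp_pos _).ne'
  exact (mul_eq_zero.1 h8.symm).resolve_right h10

/-- an entire function whose product with a continuous function vanishes -/
lemma zero_or_zero {κ v : ℂ → ℂ} (hκ : Differentiable ℂ κ) (hv : Continuous v)
    (h : ∀ w, κ w * v w = 0) : (∀ w, κ w = 0) ∨ ∀ w, v w = 0 := by
  by_contra hcon
  push Not at hcon
  obtain ⟨⟨w0, hw0⟩, w1, hw1⟩ := hcon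
  have h1 : ∀ᶠ w in 𝓝 w1, v w ≠ 0 := hv.continuousAt.eventually_ne hw1
  have h2 : κ =ᶠ[𝓝 w1] fun _ => 0 := by
    filter_upwards [h1] with w hw
    exact (mul_eq_zero.1 (h w)).resolve_right hw
  have h3 : AnalyticOnNhd ℂ κ Set.univ := fun z _ => hκ.analyticAt z
  have h4 : AnalyticOnNhd ℂ (fun _ : ℂ => (0 : ℂ)) Set.univ := fun z _ => analyticAt_const
  have h5 := h3.eq_of_eventuallyEq h4 h2
  exact hw0 (congrFun h5 w0)

/-- the exponential part gives the vanishing of the symbol product once `f` or `g` is constant -/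
lemma GI_full {f g h k : ℂ → ℂ} (hfd : Differentiable ℂ f) (hf : EG f) (hgd : Differentiable ℂ g)
    (hg : EG g) (hhd : Differentiable ℂ h) (hh : EG h) (hkd : Differentiable ℂ k) (hk : EG k)
    (hfg : (∀ z, f z = f 0) ∨ ∀ z, g z = g 0) (a z : ℂ)
    (H : f z * (h z + conj (g a)) * cexp (conj a * z) +
      Lam k (fun w => (h w + conj (g a)) * cexp (conj a * w)) z = 0) :
    GI (fun w => ((f w + conj (k w)) * (h w + conj (g w))) * cexp (conj a * w) *
      cexp (z * conj w)) = 0 := by
  have e1 : EG fun w => (f w * h w * cexp (conj a * w)) * cexp (z * conj w) :=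
    ((hf.mul hh).mul (EG.exp _)).mul (EG.exp_conj z)
  have e2 : EG fun w => conj (k w) * (h w * cexp (conj a * w)) * cexp (z * conj w) :=
    (hk.conj.mul (hh.mul (EG.exp _))).mul (EG.exp_conj z)
  have e3 : EG fun w => conj ((k w * g w * cexp (conj z * w)) * cexp (a * conj w)) :=
    (((hk.mul hg).mul (EG.exp _)).mul (EG.exp_conj a)).conj
  have e4 : EG fun w => f w * conj (g w * cexp (conj z * w) * cexp (a * conj w)) :=
    hf.mul (((hg.mul (EG.exp _)).mul (EG.exp_conj a)).conj)
  have hconj : ∀ w, conj (cexp (conj z * w) * cexp (a * conj w)) =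
      cexp (conj a * w) * cexp (z * conj w) := by
    intro w
    rw [map_mul, ← Complex.exp_conj, ← Complex.exp_conj, map_mul, map_mul, Complex.conj_conj,
      Complex.conj_conj, mul_comm]
  have h1 : (fun w => ((f w + conj (k w)) * (h w + conj (g w))) * cexp (conj a * w) *
      cexp (z * conj w)) = fun w => (((f w * h w * cexp (conj a * w)) * cexp (z * conj w) +
        conj (k w) * (h w * cexp (conj a * w)) * cexp (z * conj w)) +
        conj ((k w * g w * cexp (conj z * w)) * cexp (a * conj w))) +
        f w * conj (g w * cexp (conj z * w) * cexp (a * conj w)) := by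
    funext w
    have h2 := hconj w
    rw [show k w * g w * cexp (conj z * w) * cexp (a * conj w) =
      k w * g w * (cexp (conj z * w) * cexp (a * conj w)) by ring, map_mul, map_mul, h2,
      show g w * cexp (conj z * w) * cexp (a * conj w) =
      g w * (cexp (conj z * w) * cexp (a * conj w)) by ring, map_mul, h2]
    ring
  have i1 : GI (fun w => (f w * h w * cexp (conj a * w)) * cexp (z * conj w)) =
      Real.pi * (f z * h z * cexp (conj a * z)) :=
    GI_repro (φ := fun w => f w * h w * cexp (conj a * w))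
      ((hfd.mul hhd).mul (by fun_prop)) ((hf.mul hh).mul (EG.exp _)) z
  have i2 : GI (fun w => conj (k w) * (h w * cexp (conj a * w)) * cexp (z * conj w)) =
      Real.pi * Lam k (fun w => h w * cexp (conj a * w)) z := GI_Lam k _ z
  have i3 : GI (fun w => conj ((k w * g w * cexp (conj z * w)) * cexp (a * conj w))) =
      Real.pi * (conj (k a) * conj (g a) * cexp (conj a * z)) := by
    rw [GI_conj, GI_repro (φ := fun w => k w * g w * cexp (conj z * w))
      ((hkd.mul hgd).mul (by fun_prop)) ((hk.mul hg).mul (EG.exp _)) a]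
    rw [map_mul, map_mul, map_mul, Complex.conj_ofReal, ← Complex.exp_conj, map_mul,
      Complex.conj_conj, mul_comm z]
  have i3' : GI (fun w => conj (g w * cexp (conj z * w) * cexp (a * conj w))) =
      Real.pi * (conj (g a) * cexp (conj a * z)) := by
    rw [GI_conj, GI_repro (φ := fun w => g w * cexp (conj z * w))
      (hgd.mul (by fun_prop)) (hg.mul (EG.exp _)) a]
    rw [map_mul, map_mul, Complex.conj_ofReal, ← Complex.exp_conj, map_mul,
      Complex.conj_conj, mul_comm z]
  have i4 : GI (fun w => f w * conj (g w * cexp (conj z * w) * cexp (a * conj w))) =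
      Real.pi * (f z * conj (g a) * cexp (conj a * z)) := by
    rcases hfg with hc | hc
    · have : (fun w => f w * conj (g w * cexp (conj z * w) * cexp (a * conj w))) =
          fun w => f 0 * conj (g w * cexp (conj z * w) * cexp (a * conj w)) := by
        funext w; rw [hc w]
      rw [this, GI_smul, i3', hc z]; ring
    · have : (fun w => f w * conj (g w * cexp (conj z * w) * cexp (a * conj w))) =
          fun w => conj (g 0) * ((f w * cexp (conj a * w)) * cexp (z * conj w)) := by
        funext w
        rw [show g w * cexp (conj z * w) * cexp (a * conj w) =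
          g w * (cexp (conj z * w) * cexp (a * conj w)) by ring, map_mul, hconj w, hc w]
        ring
      rw [this, GI_smul, GI_repro (φ := fun w => f w * cexp (conj a * w))
        (hfd.mul (by fun_prop)) (hf.mul (EG.exp _)) z, hc a]
      ring
  have hL : Lam k (fun w => (h w + conj (g a)) * cexp (conj a * w)) z =
      Lam k (fun w => h w * cexp (conj a * w)) z + conj (g a) * (conj (k a) * cexp (conj a * z)) := by
    have h3 : Lam k (fun w => cexp (conj a * w)) z = conj (k a) * cexp (conj a * z) := by
      have h4 : Real.pi * Lam k (fun w => cexp (conj a * w)) z =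
          Real.pi * (conj (k a) * cexp (conj a * z)) := by
        rw [← GI_Lam]
        have h5 : (fun w => conj (k w) * cexp (conj a * w) * cexp (z * conj w)) =
            fun w => conj ((k w * cexp (conj z * w)) * cexp (a * conj w)) := by
          funext w
          rw [show k w * cexp (conj z * w) * cexp (a * conj w) =
            k w * (cexp (conj z * w) * cexp (a * conj w)) by ring, map_mul, hconj w]
          ring
        rw [h5, GI_conj, GI_repro (φ := fun w => k w * cexp (conj z * w))
          (hkd.mul (by fun_prop)) (hk.mul (EG.exp _)) a]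
        rw [map_mul, map_mul, Complex.conj_ofReal, ← Complex.exp_conj, map_mul,
          Complex.conj_conj, mul_comm z]
      exact mul_left_cancel₀ pi_ne h4
    have h6 : (fun w => (h w + conj (g a)) * cexp (conj a * w)) =
        fun w => h w * cexp (conj a * w) + conj (g a) * cexp (conj a * w) := by
      funext w; ring
    rw [h6, Lam_add hk (hh.mul (EG.exp _)) ((EG.const _).mul (EG.exp _)), Lam_smul, h3]
  rw [h1, GI_add ((e1.add e2).add e3) e4, GI_add (e1.add e2) e3, GI_add e1 e2, i1, i2, i3, i4]
  rw [hL] at H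
  linear_combination Real.pi * H

/-- an unbounded entire function -/
lemma seq_of_nonconst {g : ℂ → ℂ} (hgd : Differentiable ℂ g) (hg : ¬ ∀ z, g z = g 0) :
    ∃ a : ℕ → ℂ, Tendsto (fun n => ‖a n‖) atTop atTop ∧
      Tendsto (fun n => ‖g (a n)‖) atTop atTop := by
  have h1 : ¬ Bornology.IsBounded (Set.range g) := fun hb =>
    hg fun z => hgd.apply_eq_apply_of_bounded hb z 0
  have h2 : ∀ n : ℕ, ∃ a, (n : ℝ) < ‖g a‖ := by
    intro n
    by_contra hcon
    push Not at hcon
    apply h1
    rw [isBounded_iff_forall_norm_le]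
    exact ⟨n, by rintro _ ⟨z, rfl⟩; exact hcon z⟩
  choose a ha using h2
  have h3 : Tendsto (fun n => ‖g (a n)‖) atTop atTop :=
    tendsto_atTop_mono (fun n => (ha n).le) tendsto_natCast_atTop_atTop
  refine ⟨a, ?_, h3⟩
  rw [tendsto_atTop]
  intro R
  have h4 : IsCompact (g '' Metric.closedBall 0 R) :=
    (isCompact_closedBall 0 R).image hgd.continuous
  obtain ⟨B, hB⟩ := h4.isBounded.exists_norm_le
  filter_upwards [h3.eventually_gt_atTop B] with n hn
  by_contra hcon
  push Not at hcon
  exact absurd (hB _ ⟨a n, by simpa using hcon.le, rfl⟩) (not_le.2 hn)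

theorem zero_product (m : ℕ) (hm : 1 ≤ m) (f g h k : ℂ → ℂ) (hf : A1 f) (hg : A1 g) (hh : A1 h)
    (hk : A1 k)
    (H : ∀ a z : ℂ, Toep m (fun w => f w + conj (k w))
      (Toep m (fun w => h w + conj (g w)) (fun w => Ker m w a)) z = 0) :
    (∀ z, f z + conj (k z) = 0) ∨ (∀ z, h z + conj (g z) = 0) := by
  classical
  obtain ⟨Sf, hfS⟩ := hf.ep
  obtain ⟨Sg, hgS⟩ := hg.ep
  obtain ⟨Sh, hhS⟩ := hh.ep
  obtain ⟨Sk, hkS⟩ := hk.ep
  obtain ⟨Z, hZ⟩ := separate hfS hhS hk m
  have hsep : ∀ a : ℂ, a ≠ 0 → conj a ∉ Z →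
      (∀ z, f z * (h z + conj (g a)) * cexp (conj a * z) +
        Lam k (fun w => (h w + conj (g a)) * cexp (conj a * w)) z = 0) ∧
      ∃ p : ℂ → ℂ, PD m p ∧ ∀ z, f z * (h z + conj (g a)) * sm m (conj a * z) +
        Lam k (fun w => (h w + conj (g a)) * sm m (conj a * w)) z + p z = 0 := by
    intro a ha haZ
    exact hZ (conj a) haZ (conj (g a)) fun z _ =>
      key_vanish hhS.differentiable hhS.eg hgS.differentiable hgS.eg m ha (H a z)
  have hfg : (∀ z, f z = f 0) ∨ ∀ z, g z = g 0 := by
    by_cases hgc : ∀ z, g z = g 0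
    · exact Or.inr hgc
    left
    obtain ⟨a, ha, hga⟩ := seq_of_nonconst hgS.differentiable hgc
    have h1 : ∀ᶠ n in atTop, a n ≠ 0 ∧ conj (a n) ∉ Z := by
      obtain ⟨B, hB⟩ := Z.finite_toSet.isBounded.exists_norm_le
      filter_upwards [ha.eventually_gt_atTop 0, ha.eventually_gt_atTop B] with n hn hn'
      refine ⟨norm_pos_iff.1 hn, fun hc => ?_⟩
      have h2 := hB _ (Finset.mem_coe.2 hc)
      rw [Complex.norm_conj] at h2
      exact absurd h2 (not_le.2 hn')
    obtain ⟨N, hN⟩ := eventually_atTop.1 h1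
    refine const_of_poly (m := m) hfS.differentiable hhS.eg hk hm
      (ζ := fun n => conj (a (n + N))) (c := fun n => conj (g (a (n + N)))) ?_ ?_ ?_
    · simp only [Complex.norm_conj]
      exact ha.comp (tendsto_add_atTop_nat N)
    · simp only [Complex.norm_conj]
      exact hga.comp (tendsto_add_atTop_nat N)
    · intro n
      obtain ⟨h2, h3⟩ := hN (n + N) (Nat.le_add_left _ _)
      exact (hsep _ h2 h3).2
  have huv : ∀ w, (f w + conj (k w)) * (h w + conj (g w)) = 0 := by
    refine eq_zero_of_GI ((hfS.eg.add hkS.eg.conj).mul (hhS.eg.add hgS.eg.conj))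
      (insert 0 (Z.image fun ζ => conj ζ / (Real.pi * I))) fun ξ hξ => ?_
    have hpiI : (Real.pi : ℂ) * I ≠ 0 := mul_ne_zero pi_ne I_ne_zero
    have hξ0 : ξ ≠ 0 := fun h0 => hξ (by rw [h0]; exact Finset.mem_insert_self _ _)
    have ha0 : (Real.pi : ℂ) * I * ξ ≠ 0 := mul_ne_zero hpiI hξ0
    have hconj : conj ((Real.pi : ℂ) * I * ξ) = -(Real.pi * I * conj ξ) := by
      rw [map_mul, map_mul, Complex.conj_ofReal, Complex.conj_I]; ring
    have haZ : conj ((Real.pi : ℂ) * I * ξ) ∉ Z := by
      intro hc
      apply hξ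
      refine Finset.mem_insert_of_mem (Finset.mem_image.2 ⟨_, hc, ?_⟩)
      rw [Complex.conj_conj]
      field_simp
    have h2 := GI_full hfS.differentiable hfS.eg hgS.differentiable hgS.eg hhS.differentiable
      hhS.eg hkS.differentiable hkS.eg hfg ((Real.pi : ℂ) * I * ξ) (-(Real.pi * I * ξ))
      ((hsep _ ha0 haZ).1 _)
    rw [hconj] at h2
    exact h2
  rcases hfg with hc | hc
  · have h1 : ∀ w, (conj (f 0) + k w) * conj (h w + conj (g w)) = 0 := by
      intro w
      have h2 := congrArg conj (huv w)
      rw [map_mul, map_zero, map_add, Complex.conj_conj, hc w] at h2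
      exact h2
    have hv : Continuous fun w => conj (h w + conj (g w)) :=
      (hhS.eg.add hgS.eg.conj).conj.cont
    rcases zero_or_zero ((hkS.differentiable.const_add _)) hv h1 with h2 | h2
    · left
      intro z
      have h3 := congrArg conj (h2 z)
      rw [map_add, Complex.conj_conj, map_zero] at h3
      rw [hc z]; exact h3
    · right
      intro z
      have h3 := congrArg conj (h2 z)
      rw [Complex.conj_conj, map_zero] at h3
      exact h3
  · have h1 : ∀ w, (h w + conj (g 0)) * (f w + conj (k w)) = 0 := by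
      intro w
      have h2 := huv w
      rw [hc w] at h2
      rw [mul_comm]; exact h2
    have hu : Continuous fun w => f w + conj (k w) := (hfS.eg.add hkS.eg.conj).cont
    rcases zero_or_zero (hhS.differentiable.add_const _) hu h1 with h2 | h2
    · right
      intro z
      rw [hc z]; exact h2 z
    · exact Or.inl h2

end Pool.Agent.Q186.FS
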